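import Pool.Agent.KleinClique.Main

open Finset

namespace Pool.Agent.Results.MP_c15e47_co.CliqueValues

open Classical in
/-- `ZeroSumArrows G N`: every colouring `c` of the edges of the complete graph on `N` vertices
by the Klein four-group contains a zero-sum copy of `G`, i.e. a subgraph `H` of the complete graph
isomorphic to `G` whose edge colours add up to zero. -/
def ZeroSumArrows {n : ℕ} (G : SimpleGraph (Fin n)) (N : ℕ) : Prop :=
  ∀ c : (⊤ : SimpleGraph (Fin N)).edgeSet → ZMod 2 × ZMod 2,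
    ∃ H : (⊤ : SimpleGraph (Fin N)).Subgraph, Nonempty (G ≃g H.coe) ∧
      ∑ e : H.edgeSet, c ⟨e.1, H.edgeSet_subset e.2⟩ = 0

open Pool.Agent.KleinClique

theorem toFinset_inj {N : ℕ} {e f : Sym2 (Fin N)} (h : e.toFinset = f.toFinset) : e = f := by
  apply Sym2.ext
  intro x
  rw [← Sym2.mem_toFinset, ← Sym2.mem_toFinset, h]

theorem toFinset_pair {N : ℕ} (x y : Fin N) : (s(x, y) : Sym2 (Fin N)).toFinset = {x, y} := by
  ext z
  rw [Sym2.mem_toFinset, Sym2.mem_iff, Finset.mem_insert, Finset.mem_singleton]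

theorem sum_complete {N : ℕ} (c2 : Sym2 (Fin N) → K4) (cF : Finset (Fin N) → K4)
    (hcF : ∀ e : Sym2 (Fin N), cF e.toFinset = c2 e) (H : (⊤ : SimpleGraph (Fin N)).Subgraph)
    (S : Finset (Fin N)) (hS : ∀ v, v ∈ S ↔ v ∈ H.verts)
    (hadj : ∀ x ∈ S, ∀ y ∈ S, x ≠ y → H.Adj x y) [Fintype H.edgeSet] :
    ∑ e : H.edgeSet, c2 e.1 = cs cF S := by
  unfold cs
  refine Finset.sum_bij (fun e _ => e.1.toFinset) ?_ ?_ ?_ ?_
  · rintro ⟨e, he⟩ _
    induction e with
    | _ x y =>
    rw [SimpleGraph.Subgraph.mem_edgeSet] at he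
    have hx : x ∈ S := (hS x).2 he.fst_mem
    have hy : y ∈ S := (hS y).2 he.snd_mem
    simp only [toFinset_pair, Finset.mem_powersetCard]
    refine ⟨?_, Finset.card_pair he.ne⟩
    intro z hz
    rw [Finset.mem_insert, Finset.mem_singleton] at hz
    rcases hz with rfl | rfl
    · exact hx
    · exact hy
  · rintro ⟨e, he⟩ _ ⟨f, hf⟩ _ h
    exact Subtype.ext (toFinset_inj h)
  · intro t ht
    rw [Finset.mem_powersetCard, Finset.card_eq_two] at ht
    obtain ⟨h1, x, y, hxy, rfl⟩ := ht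
    have hx : x ∈ S := h1 (Finset.mem_insert_self _ _)
    have hy : y ∈ S := h1 (Finset.mem_insert_of_mem (Finset.mem_singleton_self _))
    refine ⟨⟨s(x, y), ?_⟩, Finset.mem_univ _, toFinset_pair x y⟩
    rw [SimpleGraph.Subgraph.mem_edgeSet]
    exact hadj x hx y hy hxy
  · rintro ⟨e, he⟩ _
    exact (hcF e).symm

theorem arrows_of {n N : ℕ}
    (h : ∀ f : Finset (Fin N) → K4, ∃ S : Finset (Fin N), S.card = n ∧ cs f S = 0) :
    ZeroSumArrows (⊤ : SimpleGraph (Fin n)) N := by
  classical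
  intro c
  let c2 : Sym2 (Fin N) → K4 := fun e =>
    if h : e ∈ (⊤ : SimpleGraph (Fin N)).edgeSet then c ⟨e, h⟩ else 0
  let cF : Finset (Fin N) → K4 := fun t =>
    if h : ∃ e : Sym2 (Fin N), e.toFinset = t then c2 h.choose else 0
  have hcF : ∀ e : Sym2 (Fin N), cF e.toFinset = c2 e := by
    intro e
    have h1 : ∃ e' : Sym2 (Fin N), e'.toFinset = e.toFinset := ⟨e, rfl⟩
    have h2 : cF e.toFinset = c2 h1.choose := dif_pos h1
    rw [h2, toFinset_inj h1.choose_spec]
  obtain ⟨S, hSn, hS0⟩ := h cF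
  refine ⟨(⊤ : (⊤ : SimpleGraph (Fin N)).Subgraph).induce (S : Set (Fin N)), ⟨?_⟩, ?_⟩
  · have hcard : Fintype.card ((⊤ : (⊤ : SimpleGraph (Fin N)).Subgraph).induce
        (S : Set (Fin N))).verts = n := by
      rw [← hSn]
      simp
    refine ⟨(Fintype.equivFinOfCardEq hcard).symm, ?_⟩
    intro a b
    rw [SimpleGraph.Subgraph.coe_adj, SimpleGraph.Subgraph.induce_adj,
      SimpleGraph.Subgraph.top_adj, SimpleGraph.top_adj, SimpleGraph.top_adj]
    constructor
    · rintro ⟨_, _, h3⟩ rfl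
      exact h3 rfl
    · intro h3
      refine ⟨Subtype.coe_prop _, Subtype.coe_prop _, fun h4 => h3 ?_⟩
      exact (Fintype.equivFinOfCardEq hcard).symm.injective (Subtype.ext h4)
  · rw [← hS0, ← sum_complete c2 cF hcF
      ((⊤ : (⊤ : SimpleGraph (Fin N)).Subgraph).induce (S : Set (Fin N))) S
      (fun v => Iff.rfl)]
    · refine Finset.sum_congr rfl fun e _ => ?_
      simp only [c2]
      rw [dif_pos (SimpleGraph.Subgraph.edgeSet_subset _ e.2)]
    · intro x hx y hy hxy
      rw [SimpleGraph.Subgraph.induce_adj, SimpleGraph.Subgraph.top_adj, SimpleGraph.top_adj]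
      exact ⟨hx, hy, hxy⟩

theorem not_arrows_of {n N : ℕ} (f : Finset (Fin N) → K4)
    (h : ∀ S : Finset (Fin N), S.card = n → cs f S ≠ 0) :
    ¬ ZeroSumArrows (⊤ : SimpleGraph (Fin n)) N := by
  classical
  intro hA
  obtain ⟨H, ⟨φ⟩, h0⟩ := hA (fun e => f e.1.toFinset)
  have hcard : Fintype.card H.verts = n := by
    rw [← Fintype.card_congr φ.toEquiv, Fintype.card_fin]
  refine h H.verts.toFinset ?_ ?_
  · rw [Set.toFinset_card, hcard]
  · rw [← sum_complete (fun e => f e.toFinset) f (fun e => rfl) H H.verts.toFinset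
      (fun v => Set.mem_toFinset)]
    · exact h0
    · intro x hx y hy hxy
      rw [Set.mem_toFinset] at hx hy
      have h1 : (⊤ : SimpleGraph (Fin n)).Adj (φ.symm ⟨x, hx⟩) (φ.symm ⟨y, hy⟩) := by
        rw [SimpleGraph.top_adj]
        intro h2
        have h3 := φ.symm.injective h2
        exact hxy (congrArg Subtype.val h3)
      have h2 := φ.map_rel_iff.2 h1
      simpa using h2

theorem arrows_of' {n N M : ℕ} (hM : N = n + M)
    (h : ∀ (c : Finset (Fin N) → K4) (A : Finset (Fin N)), A.card = n + M →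
      ∃ S ⊆ A, S.card = n ∧ cs c S = 0) : ZeroSumArrows (⊤ : SimpleGraph (Fin n)) N := by
  refine arrows_of fun f => ?_
  obtain ⟨S, _, h1, h2⟩ := h f Finset.univ (by rw [Finset.card_univ, Fintype.card_fin, hM])
  exact ⟨S, h1, h2⟩

/-- the vertices `x` with `a ≤ x < b` -/
def cls (N a b : ℕ) : Finset (Fin N) := Finset.univ.filter (fun x => a ≤ x.val ∧ x.val < b)

theorem mem_cls {N a b : ℕ} {x : Fin N} : x ∈ cls N a b ↔ a ≤ x.val ∧ x.val < b := by
  unfold cls
  rw [Finset.mem_filter]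
  exact ⟨fun h => h.2, fun h => ⟨Finset.mem_univ _, h⟩⟩

theorem card_cls (N a b : ℕ) : (cls N a b).card ≤ b - a := by
  rw [← Nat.card_Ico]
  refine Finset.card_le_card_of_injOn Fin.val ?_ ?_
  · intro x hx
    rw [Finset.mem_coe, mem_cls] at hx
    rw [Finset.mem_coe, Finset.mem_Ico]
    exact hx
  · intro x _ y _ h
    exact Fin.ext h

theorem not_arrows {n N : ℕ} (hn : 2 ≤ n) (hN : N ≤ n + 3) :
    ¬ ZeroSumArrows (⊤ : SimpleGraph (Fin n)) N := by
  refine not_arrows_of _ fun S hS => lower (cls N 0 3) (cls N 0 5) S ?_ ?_ ?_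
  · exact (Finset.card_le_card Finset.inter_subset_right).trans (card_cls N 0 3)
  · have h1 : S ∩ cls N 0 5 ⊆ (S ∩ cls N 0 3) ∪ cls N 3 5 := by
      intro x hx
      rw [Finset.mem_inter, mem_cls] at hx
      rw [Finset.mem_union, Finset.mem_inter, mem_cls, mem_cls]
      by_cases h : x.val < 3
      · exact Or.inl ⟨hx.1, Nat.zero_le _, h⟩
      · exact Or.inr ⟨by omega, hx.2.2⟩
    have h2 := (Finset.card_le_card h1).trans (Finset.card_union_le _ _)
    have h3 := card_cls N 3 5
    omega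
  · have h1 : S ⊆ (S ∩ cls N 0 5) ∪ cls N 5 N := by
      intro x hx
      rw [Finset.mem_union, Finset.mem_inter, mem_cls, mem_cls]
      by_cases h : x.val < 5
      · exact Or.inl ⟨hx, Nat.zero_le _, h⟩
      · exact Or.inr ⟨by omega, x.isLt⟩
    have h2 := (Finset.card_le_card h1).trans (Finset.card_union_le _ _)
    have h3 := card_cls N 5 N
    omega

theorem not_arrows_small {n N : ℕ} (hn : 4 ≤ n) (hn5 : n ≤ 5) (hN : N ≤ n + 5) :
    ¬ ZeroSumArrows (⊤ : SimpleGraph (Fin n)) N := by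
  refine not_arrows_of _ fun S hS => three (cls N 0 3) (cls N 3 6) (cls N 6 9) S ?_ ?_ ?_ ?_ ?_
  · exact (Finset.card_le_card Finset.inter_subset_right).trans (card_cls N 0 3)
  · exact (Finset.card_le_card Finset.inter_subset_right).trans (card_cls N 3 6)
  · exact (Finset.card_le_card Finset.inter_subset_right).trans (card_cls N 6 9)
  · have h1 : S ⊆ ((S ∩ cls N 0 3) ∪ (S ∩ cls N 3 6)) ∪ ((S ∩ cls N 6 9) ∪ cls N 9 N) := by
      intro x hx
      simp only [Finset.mem_union, Finset.mem_inter, mem_cls, hx, true_and]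
      have := x.isLt
      omega
    have h2 := (Finset.card_le_card h1).trans (Finset.card_union_le _ _)
    have h3 := Finset.card_union_le (S ∩ cls N 0 3) (S ∩ cls N 3 6)
    have h4 := Finset.card_union_le (S ∩ cls N 6 9) (cls N 9 N)
    have h5 := card_cls N 9 N
    omega
  · have h1 : Disjoint (S ∩ cls N 0 3) (S ∩ cls N 3 6) := by
      rw [Finset.disjoint_left]
      intro x hx hy
      rw [Finset.mem_inter, mem_cls] at hx hy
      omega
    have h2 : Disjoint ((S ∩ cls N 0 3) ∪ (S ∩ cls N 3 6)) (S ∩ cls N 6 9) := by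
      rw [Finset.disjoint_left]
      intro x hx hy
      rw [Finset.mem_union, Finset.mem_inter, Finset.mem_inter, mem_cls, mem_cls] at hx
      rw [Finset.mem_inter, mem_cls] at hy
      omega
    rw [← Finset.card_union_of_disjoint h1, ← Finset.card_union_of_disjoint h2]
    have h3 : ((S ∩ cls N 0 3) ∪ (S ∩ cls N 3 6)) ∪ (S ∩ cls N 6 9) ⊆ S :=
      Finset.union_subset (Finset.union_subset Finset.inter_subset_left Finset.inter_subset_left)
        Finset.inter_subset_left
    have h4 := Finset.card_le_card h3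
    omega

theorem isLeast_of {n R : ℕ} (h1 : ZeroSumArrows (⊤ : SimpleGraph (Fin n)) R)
    (h2 : ∀ N, N < R → ¬ ZeroSumArrows (⊤ : SimpleGraph (Fin n)) N) :
    IsLeast {N : ℕ | ZeroSumArrows (⊤ : SimpleGraph (Fin n)) N} R := by
  refine ⟨h1, fun N hN => ?_⟩
  by_contra hlt
  exact h2 N (by omega) hN

theorem mod_of_even {n : ℕ} (h : Even (n.choose 2)) : n % 4 = 0 ∨ n % 4 = 1 := by
  by_contra hcon
  rw [not_or] at hcon
  have h1 : n % 4 = 2 ∨ n % 4 = 3 := by omega
  rw [Nat.choose_two_right, Nat.even_iff] at h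
  rcases h1 with h1 | h1
  · obtain ⟨t, rfl⟩ : ∃ t, n = 4 * t + 2 := ⟨n / 4, by omega⟩
    have h2 : (4 * t + 2) * (4 * t + 2 - 1) = 2 * (2 * (t * (4 * t + 1) + 2 * t) + 1) := by
      have h3 : 4 * t + 2 - 1 = 4 * t + 1 := by omega
      rw [h3]
      ring
    rw [h2, Nat.mul_div_cancel_left _ (by norm_num)] at h
    omega
  · obtain ⟨t, rfl⟩ : ∃ t, n = 4 * t + 3 := ⟨n / 4, by omega⟩
    have h2 : (4 * t + 3) * (4 * t + 3 - 1) = 2 * (2 * (t * (4 * t + 3) + 2 * t + 1) + 1) := by
      have h3 : 4 * t + 3 - 1 = 4 * t + 2 := by omega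
      rw [h3]
      ring
    rw [h2, Nat.mul_div_cancel_left _ (by norm_num)] at h
    omega

/-- The zero-sum Ramsey number over the Klein four-group of every complete graph `K_n`, `n ≥ 2`,
with an even number of edges: it is `n + 6` for `n = 4, 5` and `n + 4` for all larger `n`. -/
theorem result (n : ℕ) (h2 : 2 ≤ n) (hn : Even (n.choose 2)) :
    IsLeast {N : ℕ | ZeroSumArrows (⊤ : SimpleGraph (Fin n)) N}
      (if n ≤ 5 then n + 6 else n + 4) := by
  have hmod := mod_of_even hn
  split_ifs with h5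
  · refine isLeast_of ?_ ?_
    · exact arrows_of' (n := n) (M := 6) rfl (fun c A hA => six (by omega) c A hA)
    · exact fun N hN => not_arrows_small (by omega) (by omega) (by omega)
  · refine isLeast_of ?_ ?_
    · exact arrows_of' rfl (fun c A hA => upper (by omega) hmod c A hA)
    · exact fun N hN => not_arrows (by omega) (by omega)

end Pool.Agent.Results.MP_c15e47_co.CliqueValues
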