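import Pool.Agent.H29.ZS.StarCase

open Finset

namespace Pool.Agent.Results.MP_c15e47_co.KleinAdditive

open Classical in
/-- `ZeroSumArrows G N`: every colouring `c` of the edges of the complete graph on `N` vertices
by the Klein four-group contains a zero-sum copy of `G`, i.e. a subgraph `H` of the complete graph
isomorphic to `G` whose edge colours add up to zero. -/
def ZeroSumArrows {n : ℕ} (G : SimpleGraph (Fin n)) (N : ℕ) : Prop :=
  ∀ c : (⊤ : SimpleGraph (Fin N)).edgeSet → ZMod 2 × ZMod 2,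
    ∃ H : (⊤ : SimpleGraph (Fin N)).Subgraph, Nonempty (G ≃g H.coe) ∧
      ∑ e : H.edgeSet, c ⟨e.1, H.edgeSet_subset e.2⟩ = 0

theorem sum_edges {n : ℕ} (G : SimpleGraph (Fin n)) [DecidableRel G.Adj] {M : Type*}
    [AddCommMonoid M] (F : Sym2 (Fin n) → M) :
    ∑ u, ∑ v, (if u < v ∧ G.Adj u v then F s(u, v) else 0) = ∑ e ∈ G.edgeFinset, F e := by
  rw [← Finset.sum_product', ← Finset.sum_filter]
  refine Finset.sum_bij (fun p _ => s(p.1, p.2)) ?_ ?_ ?_ ?_
  · intro p hp
    rw [Finset.mem_filter] at hp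
    rw [SimpleGraph.mem_edgeFinset]
    exact hp.2.2
  · intro p hp q hq hpq
    rw [Finset.mem_filter] at hp hq
    rcases Sym2.eq_iff.1 hpq with ⟨h1, h2⟩ | ⟨h1, h2⟩
    · exact Prod.ext h1 h2
    · exfalso
      have a1 := hp.2.1
      have a2 := hq.2.1
      rw [h1, h2] at a1
      exact lt_asymm a1 a2
  · intro e he
    induction e with
    | _ u v =>
    rw [SimpleGraph.mem_edgeFinset, SimpleGraph.mem_edgeSet] at he
    rcases lt_or_gt_of_ne he.ne with h | h
    · exact ⟨(u, v), Finset.mem_filter.2 ⟨by simp, h, he⟩, rfl⟩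
    · exact ⟨(v, u), Finset.mem_filter.2 ⟨by simp, h, he.symm⟩, Sym2.eq_swap⟩
  · intro p _
    rfl

theorem arith3 (n : ℕ) : n + 5 + 20500 ≤ n + 20505 := by
  linarith

open Pool.Agent.H29.ZS in
theorem arrows {n : ℕ} (G : SimpleGraph (Fin n)) (hG : Even G.edgeSet.ncard) :
    ZeroSumArrows G (n + 20505) := by
  classical
  obtain ⟨N, hN⟩ : ∃ N, N = n + 20505 := ⟨_, rfl⟩
  rw [← hN]
  intro c
  let c2 : Sym2 (Fin N) → K4 := fun e =>
    if h : e ∈ (⊤ : SimpleGraph (Fin N)).edgeSet then c ⟨e, h⟩ else 0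
  let c1 : Fin N → Fin N → K4 := fun x y => c2 s(x, y)
  have hc1 : ∀ x y, c1 x y = c1 y x := by
    intro x y; simp only [c1]; rw [Sym2.eq_swap]
  let h : (Fin n ⊕ Fin 5) → (Fin n ⊕ Fin 5) → ZMod 2 := fun a b =>
    match a, b with
    | Sum.inl u, Sum.inl v => if u < v ∧ G.Adj u v then 1 else 0
    | _, _ => 0
  have hd : ∀ a, h a a = 0 := by
    rintro (u | u)
    · simp [h]
    · rfl
  have hev : ∑ a, ∑ b, h a b = 0 := by
    simp only [Fintype.sum_sum_type]
    have e1 : ∑ u : Fin n, ∑ v : Fin n, h (Sum.inl u) (Sum.inl v) = (G.edgeFinset.card : ZMod 2) := by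
      have := sum_edges G (fun _ => (1 : ZMod 2))
      rw [Finset.sum_const, nsmul_eq_mul, mul_one] at this
      exact this
    have e2 : (G.edgeFinset.card : ZMod 2) = 0 := by
      rw [ZMod.natCast_eq_zero_iff, ← even_iff_two_dvd]
      rw [← SimpleGraph.coe_edgeFinset, Set.ncard_coe_finset] at hG
      exact hG
    have e3 : ∀ u v, h (Sum.inl u) (Sum.inr v) = 0 := fun _ _ => rfl
    have e4 : ∀ u v, h (Sum.inr u) v = 0 := fun _ _ => rfl
    simp only [e3, e4, Finset.sum_const_zero, add_zero, e1, e2]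
  obtain ⟨φ, hφ⟩ := core h hd hev c1 hc1 (Finset.univ.image Sum.inr)
    (by
      intro w hw v
      obtain ⟨i, -, rfl⟩ := Finset.mem_image.1 hw
      show h (Sum.inr i) v + h v (Sum.inr i) = 0
      rcases v with v | v
      · show (0 : ZMod 2) + 0 = 0
        simp
      · show (0 : ZMod 2) + 0 = 0
        simp)
    (by
      rw [Finset.card_image_of_injective _ Sum.inr_injective]
      simp)
    (by
      simp only [Fintype.card_sum, Fintype.card_fin]
      exact le_of_le_of_eq (arith3 n) hN.symm)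
  let ψ : Fin n ↪ Fin N := Function.Embedding.inl.trans φ
  let f : SimpleGraph.Copy G (⊤ : SimpleGraph (Fin N)) :=
    ⟨⟨ψ, fun {a b} hab => ψ.injective.ne hab.ne⟩, ψ.injective⟩
  refine ⟨f.toSubgraph, ⟨f.isoToSubgraph⟩, ?_⟩
  have hsum : Q h c1 φ = ∑ e ∈ G.edgeFinset, c2 (e.map ψ) := by
    rw [← sum_edges G (fun e => c2 (e.map ψ))]
    simp only [Q, Fintype.sum_sum_type]
    have e3 : ∀ u v, h (Sum.inl u) (Sum.inr v) = 0 := fun _ _ => rfl
    have e4 : ∀ u v, h (Sum.inr u) v = 0 := fun _ _ => rfl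
    simp only [e3, e4, zero_smul, Finset.sum_const_zero, add_zero]
    refine Finset.sum_congr rfl fun u _ => Finset.sum_congr rfl fun v _ => ?_
    show (if u < v ∧ G.Adj u v then (1 : ZMod 2) else 0) • c1 (φ (Sum.inl u)) (φ (Sum.inl v)) = _
    split_ifs
    · rw [one_smul]; rfl
    · rw [zero_smul]
  rw [hsum] at hφ
  rw [← hφ]
  have e1 : ∑ e : f.toSubgraph.edgeSet, c ⟨e.1, f.toSubgraph.edgeSet_subset e.2⟩ =
      ∑ e : f.toSubgraph.edgeSet, c2 e.1 := by
    refine Finset.sum_congr rfl fun e _ => ?_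
    simp only [c2]
    rw [dif_pos (f.toSubgraph.edgeSet_subset e.2)]
  rw [e1]
  have e2 : ∑ e : f.toSubgraph.edgeSet, c2 e.1 = ∑ e ∈ G.edgeFinset.image (Sym2.map ψ), c2 e := by
    symm
    refine Finset.sum_subtype _ (fun x => ?_) _
    rw [SimpleGraph.Subgraph.edgeSet_map]
    simp only [Finset.mem_image, SimpleGraph.mem_edgeFinset, Set.mem_image,
      SimpleGraph.Subgraph.edgeSet_top]
    rfl
  rw [e2, Finset.sum_image]
  intro a _ b _ hab
  exact Sym2.map.injective ψ.injective hab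

/-- There is an absolute constant `C` such that every graph `G` on `n` vertices with an even
number of edges has a zero-sum Ramsey number over the Klein four-group, which is at most
`n + C`. -/
theorem result : ∃ C : ℕ, ∀ (n : ℕ) (G : SimpleGraph (Fin n)), Even G.edgeSet.ncard →
    ∃ R : ℕ, IsLeast {N : ℕ | ZeroSumArrows G N} R ∧ R ≤ n + C := by
  refine ⟨20505, fun n G hG => ?_⟩
  have h := arrows G hG
  exact ⟨sInf {N : ℕ | ZeroSumArrows G N}, ⟨Nat.sInf_mem ⟨_, h⟩, fun N hN => Nat.sInf_le hN⟩,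
    Nat.sInf_le h⟩

end Pool.Agent.Results.MP_c15e47_co.KleinAdditive
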