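import Mathlib

open Finset

namespace Pool.Agent.Results.MP_c15e47_co.MultipartiteSix

/-- `ZeroSumArrows G N`: every colouring `c` of the edges of the complete graph on `N` vertices
by the Klein four-group contains a zero-sum copy of `G`: an injective map `f` from the vertices of
`G` to the `N` vertices such that the colours of the images of the edges of `G` add up to zero.
(The values of `c` on the diagonal of `Sym2` are never used.) -/
def ZeroSumArrows {n : ℕ} (G : SimpleGraph (Fin n)) [DecidableRel G.Adj] (N : ℕ) : Prop :=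
  ∀ c : Sym2 (Fin N) → ZMod 2 × ZMod 2,
    ∃ f : Fin n ↪ Fin N, ∑ e ∈ G.edgeFinset, c (e.map f) = 0

/-- `EvenBuilt G B`: the subgraph of `G` induced on the vertex set `B` can be built up from the
empty graph by repeatedly adding
* a set `W` of pairwise non-adjacent vertices such that every vertex present has an even number of
  neighbours in `W` (e.g. one isolated vertex, or two non-adjacent twins), or
* four pairwise adjacent vertices with the same neighbours among the vertices present, or
* two new components, each of them a complete graph on two or three vertices. -/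
inductive EvenBuilt {n : ℕ} (G : SimpleGraph (Fin n)) [DecidableRel G.Adj] :
    Finset (Fin n) → Prop
  | empty : EvenBuilt G ∅
  | indep (B W : Finset (Fin n)) (hB : EvenBuilt G B) (hd : Disjoint B W)
      (hind : ∀ w ∈ W, ∀ w' ∈ W, ¬ G.Adj w w')
      (heven : ∀ b ∈ B, Even (W.filter (fun w => G.Adj w b)).card) : EvenBuilt G (B ∪ W)
  | quad (B W : Finset (Fin n)) (hB : EvenBuilt G B) (hd : Disjoint B W) (hW : W.card = 4)
      (hadj : ∀ w ∈ W, ∀ w' ∈ W, w ≠ w' → G.Adj w w')
      (htwin : ∀ w ∈ W, ∀ w' ∈ W, ∀ b ∈ B, (G.Adj w b ↔ G.Adj w' b)) :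
      EvenBuilt G (B ∪ W)
  | cliques (B W1 W2 : Finset (Fin n)) (hB : EvenBuilt G B) (hd1 : Disjoint B W1)
      (hd2 : Disjoint (B ∪ W1) W2) (h1 : W1.card = 2 ∨ W1.card = 3)
      (h2 : W2.card = 2 ∨ W2.card = 3)
      (hadj1 : ∀ w ∈ W1, ∀ w' ∈ W1, w ≠ w' → G.Adj w w')
      (hadj2 : ∀ w ∈ W2, ∀ w' ∈ W2, w ≠ w' → G.Adj w w')
      (hno1 : ∀ w ∈ W1, ∀ b ∈ B, ¬ G.Adj w b) (hno2 : ∀ w ∈ W2, ∀ b ∈ B ∪ W1, ¬ G.Adj w b) :
      EvenBuilt G (B ∪ W1 ∪ W2)

abbrev K := ZMod 2 × ZMod 2

/-- sum of the colours inside `S`. -/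
def E {V : Type*} [LinearOrder V] (c : V → V → K) (S : Finset V) : K :=
  ∑ i ∈ S, ∑ j ∈ S with i < j, c i j

theorem K_add_self (a : K) : a + a = 0 := by
  revert a; decide

theorem K_eq : ∀ a b : K, a + b = 0 → a = b := by
  decide

theorem E_insert {V : Type*} [LinearOrder V] (c : V → V → K) (hc : ∀ i j, c i j = c j i)
    (S : Finset V) (v : V) (hv : v ∉ S) : E c (insert v S) = E c S + ∑ j ∈ S, c v j := by
  unfold E
  rw [Finset.sum_insert hv]
  have h1 : ∀ i ∈ S, ∑ j ∈ insert v S with i < j, c i j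
      = ∑ j ∈ S with i < j, c i j + (if i < v then c v i else 0) := by
    intro i hi
    rw [Finset.sum_filter, Finset.sum_filter, Finset.sum_insert hv, add_comm, hc v i]
  rw [Finset.sum_congr rfl h1, Finset.sum_add_distrib, Finset.sum_filter, Finset.sum_insert hv]
  have h2 : ∑ j ∈ S, c v j = ∑ j ∈ S, (if v < j then c v j else 0)
      + ∑ j ∈ S, (if j < v then c v j else 0) := by
    rw [← Finset.sum_add_distrib]
    refine Finset.sum_congr rfl fun j hj => ?_
    rcases lt_trichotomy v j with h | h | h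
    · simp [h, h.not_gt]
    · subst h; exact absurd hj hv
    · simp [h, h.not_gt]
  rw [h2]
  simp only [lt_irrefl, if_false, zero_add]
  abel

theorem E_empty {V : Type*} [LinearOrder V] (c : V → V → K) : E c ∅ = 0 := by
  simp [E]

theorem E_map {U V : Type*} [LinearOrder U] [LinearOrder V] (c : V → V → K)
    (hc : ∀ i j, c i j = c j i) (f : U ↪ V) (S : Finset U) :
    E c (S.map f) = E (fun i j => c (f i) (f j)) S := by
  induction S using Finset.induction_on with
  | empty => simp [E]
  | insert v S hv ih =>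
    rw [Finset.map_insert, E_insert c hc _ _ (by simpa using hv),
      E_insert _ (fun i j => hc _ _) _ _ hv, ih, Finset.sum_map]

theorem E_image {U V : Type*} [LinearOrder U] [LinearOrder V] (c : V → V → K)
    (hc : ∀ i j, c i j = c j i) (f : U → V) (S : Finset U) (hf : Set.InjOn f S) :
    E c (S.image f) = E (fun i j => c (f i) (f j)) S := by
  induction S using Finset.induction_on with
  | empty => simp [E]
  | insert v S hv ih =>
    have hS : Set.InjOn f (S : Set U) := hf.mono (by simp)
    have hv' : f v ∉ S.image f := by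
      intro h
      rw [Finset.mem_image] at h
      obtain ⟨w, hw, hwv⟩ := h
      have : w = v := hf (by simp [hw]) (by simp) hwv
      exact hv (this ▸ hw)
    rw [Finset.image_insert, E_insert c hc _ _ hv', E_insert _ (fun i j => hc _ _) _ _ hv,
      ih hS, Finset.sum_image (fun a ha b hb hab => hS ha hb hab)]

theorem E_union {V : Type*} [LinearOrder V] (c : V → V → K) (hc : ∀ i j, c i j = c j i)
    (S T : Finset V) (h : Disjoint S T) :
    E c (S ∪ T) = E c S + (∑ t ∈ T, ∑ s ∈ S, c t s) + E c T := by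
  induction T using Finset.induction_on with
  | empty => simp [E]
  | insert v T hv ih =>
    rw [Finset.disjoint_insert_right] at h
    rw [Finset.union_insert, E_insert c hc _ _ (by simp [h.1, hv]), E_insert c hc _ _ hv,
      ih h.2, Finset.sum_insert hv, Finset.sum_union h.2]
    abel

/-! ### The Chevalley-Warning step -/

open MvPolynomial in
theorem cw {σ : Type*} [Fintype σ] [LinearOrder σ] (l : σ → K) (q : σ → σ → K)
    (ks : Finset ℕ) (hks : (∑ k ∈ ks, k) + 4 < Fintype.card σ) (hpos : ∀ k ∈ ks, 0 < k) :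
    ∃ T : Finset σ, T.Nonempty ∧ (∀ k ∈ ks, Even (T.card.choose k)) ∧
      ∑ i ∈ T, l i + E q T = 0 := by
  classical
  let Pe : ℕ → MvPolynomial σ (ZMod 2) := fun k =>
    ∑ t ∈ powersetCard k (univ : Finset σ), ∏ i ∈ t, X i
  let Pq : (K → ZMod 2) → MvPolynomial σ (ZMod 2) := fun π =>
    ∑ i, C (π (l i)) * X i + ∑ i, ∑ j with i < j, C (π (q i j)) * (X i * X j)
  let f : ℕ ⊕ Bool → MvPolynomial σ (ZMod 2) := fun a =>
    match a with
    | Sum.inl k => Pe k
    | Sum.inr true => Pq Prod.fst
    | Sum.inr false => Pq Prod.snd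
  let s : Finset (ℕ ⊕ Bool) := ks.disjSum univ
  have hPe : ∀ k, (Pe k).totalDegree ≤ k := by
    intro k
    refine totalDegree_finsetSum_le fun t ht => ?_
    refine (totalDegree_finsetProd _ _).trans ?_
    rw [mem_powersetCard] at ht
    calc ∑ i ∈ t, (X i : MvPolynomial σ (ZMod 2)).totalDegree = ∑ i ∈ t, 1 := by
          simp [totalDegree_X]
      _ ≤ k := by simp [ht.2]
  have hPq : ∀ π, (Pq π).totalDegree ≤ 2 := by
    intro π
    refine (totalDegree_add _ _).trans (max_le ?_ ?_)
    · refine totalDegree_finsetSum_le fun i _ => ?_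
      refine (totalDegree_mul _ _).trans ?_
      simp [totalDegree_X]
    · refine totalDegree_finsetSum_le fun i _ => ?_
      refine totalDegree_finsetSum_le fun j _ => ?_
      refine (totalDegree_mul _ _).trans ?_
      rw [totalDegree_C, zero_add]
      refine (totalDegree_mul _ _).trans ?_
      simp [totalDegree_X]
  have hdeg : (∑ a ∈ s, (f a).totalDegree) < Fintype.card σ := by
    refine lt_of_le_of_lt ?_ hks
    rw [Finset.sum_disjSum]
    refine add_le_add (Finset.sum_le_sum fun k _ => hPe k) ?_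
    rw [Fintype.sum_bool]
    exact add_le_add (hPq _) (hPq _)
  have hdvd := char_dvd_card_solutions_of_sum_lt (K := ZMod 2) 2 hdeg
  -- there is a solution other than zero
  have hne : ∃ x : σ → ZMod 2, (∀ a ∈ s, eval x (f a) = 0) ∧ x ≠ 0 := by
    by_contra hcon
    push Not at hcon
    have h0 : ∀ a ∈ s, eval (0 : σ → ZMod 2) (f a) = 0 := by
      intro a ha
      rcases a with k | b
      · have hk : k ∈ ks := by simpa [s] using ha
        have := hpos k hk
        simp only [f, Pe, map_sum, map_prod, eval_X]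
        refine Finset.sum_eq_zero fun t ht => ?_
        rw [mem_powersetCard] at ht
        have : t.Nonempty := by
          rw [← Finset.card_pos]; omega
        obtain ⟨i, hi⟩ := this
        exact Finset.prod_eq_zero hi rfl
      · cases b <;> simp [f, Pq]
    have hcard : Fintype.card { x : σ → ZMod 2 // ∀ a ∈ s, eval x (f a) = 0 } = 1 := by
      rw [Fintype.card_eq_one_iff]
      exact ⟨⟨0, h0⟩, fun y => Subtype.ext (hcon y.1 y.2)⟩
    rw [hcard] at hdvd
    omega
  obtain ⟨x, hx, hx0⟩ := hne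
  let T : Finset σ := univ.filter fun i => x i = 1
  have hxT : ∀ i, x i = if i ∈ T then 1 else 0 := by
    intro i
    simp only [T, mem_filter, mem_univ, true_and]
    generalize x i = y
    revert y; decide
  have hprod : ∀ t : Finset σ, ∏ i ∈ t, x i = if t ⊆ T then 1 else 0 := by
    intro t
    split_ifs with h
    · exact Finset.prod_eq_one fun i hi => by rw [hxT, if_pos (h hi)]
    · rw [Finset.not_subset] at h
      obtain ⟨i, hi, hiT⟩ := h
      exact Finset.prod_eq_zero hi (by rw [hxT, if_neg hiT])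
  refine ⟨T, ?_, ?_, ?_⟩
  · by_contra hT
    rw [Finset.not_nonempty_iff_eq_empty] at hT
    apply hx0
    funext i
    rw [hxT, hT]; simp
  · intro k hk
    have := hx (Sum.inl k) (by simpa [s] using hk)
    simp only [f, Pe, map_sum, map_prod, eval_X, hprod] at this
    rw [Finset.sum_ite, Finset.sum_const_zero, add_zero, Finset.sum_const, nsmul_eq_mul,
      mul_one] at this
    have h2 : ((powersetCard k (univ : Finset σ)).filter fun t => t ⊆ T) = powersetCard k T := by
      ext t
      simp only [mem_filter, mem_powersetCard, subset_univ, true_and]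
      tauto
    rw [h2, card_powersetCard] at this
    exact (ZMod.natCast_eq_zero_iff_even).1 this
  · have key : ∀ π : K →+ ZMod 2, eval x (Pq π) = π (∑ i ∈ T, l i + E q T) := by
      intro π
      simp only [Pq, map_add, map_sum, map_mul, eval_X, eval_C, E]
      congr 1
      · rw [← Finset.sum_filter_add_sum_filter_not univ (fun i => i ∈ T)]
        rw [Finset.filter_mem_eq_inter, Finset.univ_inter]
        have : ∑ i with i ∉ T, π (l i) * x i = 0 := by
          refine Finset.sum_eq_zero fun i hi => ?_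
          rw [mem_filter] at hi
          rw [hxT, if_neg hi.2, mul_zero]
        rw [this, add_zero]
        exact Finset.sum_congr rfl fun i hi => by rw [hxT, if_pos hi, mul_one]
      · rw [← Finset.sum_filter_add_sum_filter_not univ (fun i => i ∈ T)]
        rw [Finset.filter_mem_eq_inter, Finset.univ_inter]
        have : ∑ i with i ∉ T, ∑ j with i < j, π (q i j) * (x i * x j) = 0 := by
          refine Finset.sum_eq_zero fun i hi => Finset.sum_eq_zero fun j _ => ?_
          rw [mem_filter] at hi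
          rw [hxT i, if_neg hi.2, zero_mul, mul_zero]
        rw [this, add_zero]
        refine Finset.sum_congr rfl fun i hi => ?_
        rw [Finset.sum_filter, Finset.sum_filter]
        rw [← Finset.sum_filter_add_sum_filter_not univ (fun i => i ∈ T)]
        rw [Finset.filter_mem_eq_inter, Finset.univ_inter]
        have : ∑ j with j ∉ T, (if i < j then π (q i j) * (x i * x j) else 0) = 0 := by
          refine Finset.sum_eq_zero fun j hj => ?_
          rw [mem_filter] at hj
          rw [hxT j, if_neg hj.2, mul_zero, mul_zero, ite_self]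
        rw [this, add_zero]
        refine Finset.sum_congr rfl fun j hj => ?_
        rw [hxT i, if_pos hi, hxT j, if_pos hj]
        split_ifs <;> simp
    have h1 := hx (Sum.inr true) (by simp [s])
    have h2 := hx (Sum.inr false) (by simp [s])
    have k1 := key (AddMonoidHom.fst _ _)
    have k2 := key (AddMonoidHom.snd _ _)
    exact Prod.ext (k1.symm.trans h1) (k2.symm.trans h2)



theorem cwR {V : Type*} [LinearOrder V] (c : V → V → K) (hc : ∀ i j, c i j = c j i) (l : V → K)
    (R : Finset V) (ks : Finset ℕ) (hks : (∑ k ∈ ks, k) + 4 < R.card) (hpos : ∀ k ∈ ks, 0 < k) :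
    ∃ T ⊆ R, T.Nonempty ∧ (∀ k ∈ ks, Even (T.card.choose k)) ∧ ∑ i ∈ T, l i + E c T = 0 := by
  obtain ⟨T, h1, h2, h3⟩ := cw (σ := {v // v ∈ R}) (fun v => l v) (fun u v => c u v) ks
    (by simpa using hks) hpos
  refine ⟨T.map (Function.Embedding.subtype _), ?_, ?_, ?_, ?_⟩
  · intro v hv
    rw [Finset.mem_map] at hv
    obtain ⟨w, _, rfl⟩ := hv
    exact w.2
  · simpa using h1
  · simpa using h2
  · rw [E_map c hc, Finset.sum_map]
    exact h3

/-- eight vertices: a four-set with sum zero or everything has sum zero. -/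
theorem eight {V : Type*} [LinearOrder V] (c : V → V → K) (hc : ∀ i j, c i j = c j i) (l : V → K)
    (R : Finset V) (hR : R.card = 8) :
    (∃ T ⊆ R, T.card = 4 ∧ ∑ i ∈ T, l i + E c T = 0) ∨ ∑ i ∈ R, l i + E c R = 0 := by
  obtain ⟨T, hT, h1, h2, h3⟩ := cwR c hc l R {1, 2} (by rw [hR]; decide) (by decide)
  have hle : T.card ≤ 8 := hR ▸ Finset.card_le_card hT
  have hpos : 0 < T.card := Finset.card_pos.2 h1
  have a1 := h2 1 (by decide)
  have a2 := h2 2 (by decide)
  have key : ∀ t : ℕ, t ≤ 8 → 0 < t → Even (t.choose 1) → Even (t.choose 2) → t = 4 ∨ t = 8 := by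
    decide
  rcases key _ hle hpos a1 a2 with h | h
  · exact Or.inl ⟨T, hT, h, h3⟩
  · have : T = R := Finset.eq_of_subset_of_card_le hT (by rw [h, hR])
    rw [this] at h3
    exact Or.inr h3

theorem E_single {V : Type*} [LinearOrder V] (c : V → V → K) (s : V) : E c {s} = 0 := by
  simp [E, Finset.filter_singleton]

theorem E_four {V : Type*} [LinearOrder V] (c : V → V → K) (hc : ∀ i j, c i j = c j i)
    (p q r s : V) (h1 : p ≠ q) (h2 : p ≠ r) (h3 : p ≠ s) (h4 : q ≠ r) (h5 : q ≠ s) (h6 : r ≠ s) :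
    E c {p, q, r, s} = c p q + c p r + c p s + c q r + c q s + c r s := by
  rw [E_insert c hc _ _ (by simp [h1, h2, h3]), E_insert c hc _ _ (by simp [h4, h5]),
    E_insert c hc _ _ (by simp [h6])]
  rw [E_single, Finset.sum_singleton, Finset.sum_pair h6, Finset.sum_insert (by simp [h4, h5]),
    Finset.sum_pair h6]
  abel


/-- ten vertices with weights: there is a four-set with weighted sum zero. -/
theorem ten {V : Type*} [LinearOrder V] (c : V → V → K) (hc : ∀ i j, c i j = c j i) (l : V → K)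
    (R : Finset V) (hR : R.card = 10) :
    ∃ T ⊆ R, T.card = 4 ∧ ∑ i ∈ T, l i + E c T = 0 := by
  by_contra hno
  push Not at hno
  obtain ⟨d, hd⟩ : ∃ d : V → K, ∀ v, d v = ∑ j ∈ R.erase v, c v j :=
    ⟨_, fun _ => rfl⟩
  have hcd : ∀ u ∈ R, ∀ v ∈ R, u ≠ v →
      c u v = E c R + ∑ i ∈ R, l i + (d u + l u) + (d v + l v) := by
    intro u hu v hv huv
    have hvu : v ∈ R.erase u := Finset.mem_erase.2 ⟨huv.symm, hv⟩
    have huv' : u ∈ R.erase v := Finset.mem_erase.2 ⟨huv, hu⟩
    have hcard : ((R.erase u).erase v).card = 8 := by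
      rw [Finset.card_erase_of_mem hvu, Finset.card_erase_of_mem hu, hR]
    have h8 : ∑ i ∈ (R.erase u).erase v, l i + E c ((R.erase u).erase v) = 0 := by
      rcases eight c hc l _ hcard with ⟨T, hT, t1, t2⟩ | h
      · exact absurd t2 (hno T (hT.trans ((Finset.erase_subset _ _).trans
          (Finset.erase_subset _ _))) t1)
      · exact h
    have e1 : E c R = E c (R.erase u) + ∑ j ∈ R.erase u, c u j := by
      conv_lhs => rw [← Finset.insert_erase hu]
      exact E_insert c hc _ _ (by simp)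
    have e2 : E c (R.erase u) = E c ((R.erase u).erase v)
        + ∑ j ∈ (R.erase u).erase v, c v j := by
      conv_lhs => rw [← Finset.insert_erase hvu]
      exact E_insert c hc _ _ (by simp)
    have e3 : ∑ j ∈ R.erase v, c v j = c v u + ∑ j ∈ (R.erase u).erase v, c v j := by
      rw [Finset.erase_right_comm, Finset.add_sum_erase _ _ huv']
    have e4 : ∑ i ∈ R, l i = l u + (l v + ∑ i ∈ (R.erase u).erase v, l i) := by
      rw [Finset.add_sum_erase _ _ hvu, Finset.add_sum_erase _ _ hu]
    rw [hd u, hd v, e3, e1, e2, e4, hc v u]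
    generalize ∑ j ∈ (R.erase u).erase v, c v j = x1 at *
    generalize ∑ j ∈ R.erase u, c u j = x2 at *
    generalize ∑ i ∈ (R.erase u).erase v, l i = x3 at *
    generalize E c ((R.erase u).erase v) = x4 at *
    have h34 : x3 = x4 := K_eq x3 x4 h8
    rw [h34]
    generalize c u v = x5
    generalize l u = x6
    generalize l v = x7
    clear e1 e2 e3 e4 h8 h34 hcard hvu huv' hno
    have k := K_add_self x4
    have k1 := K_add_self x1
    have k2 := K_add_self x2
    have k5 := K_add_self x5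
    have k6 := K_add_self x6
    have k7 := K_add_self x7
    have : x4 + x1 + x2 + (x6 + (x7 + x4)) + (x2 + x6) + (x5 + x1 + x7)
        = (x4 + x4) + (x1 + x1) + (x2 + x2) + (x6 + x6) + (x7 + x7) + x5 := by abel
    rw [this, k, k1, k2, k6, k7]
    simp
  have hc1 : (Finset.univ : Finset K).card < R.card := by rw [hR]; decide
  obtain ⟨p, hp, q, hq, hpq, hdpq⟩ :=
    Finset.exists_ne_map_eq_of_card_lt_of_maps_to hc1 (f := d) (fun _ _ => Finset.mem_univ _)
  have hqp : q ∈ R.erase p := Finset.mem_erase.2 ⟨hpq.symm, hq⟩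
  have hc2 : (Finset.univ : Finset K).card < ((R.erase p).erase q).card := by
    rw [Finset.card_erase_of_mem hqp, Finset.card_erase_of_mem hp, hR]
    decide
  obtain ⟨r, hr, s, hs, hrs, hdrs⟩ :=
    Finset.exists_ne_map_eq_of_card_lt_of_maps_to hc2 (f := d) (fun _ _ => Finset.mem_univ _)
  simp only [Finset.mem_erase] at hr hs
  have hpr : p ≠ r := fun h => hr.2.1 h.symm
  have hps : p ≠ s := fun h => hs.2.1 h.symm
  have hqr : q ≠ r := fun h => hr.1 h.symm
  have hqs : q ≠ s := fun h => hs.1 h.symm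
  have hrR : r ∈ R := hr.2.2
  have hsR : s ∈ R := hs.2.2
  refine hno {p, q, r, s} ?_ ?_ ?_
  · intro x hx
    simp only [Finset.mem_insert, Finset.mem_singleton] at hx
    rcases hx with rfl | rfl | rfl | rfl <;> assumption
  · rw [Finset.card_insert_of_notMem (by simp [hpq, hpr, hps]),
      Finset.card_insert_of_notMem (by simp [hqr, hqs]), Finset.card_pair hrs]
  · rw [E_four c hc p q r s hpq hpr hps hqr hqs hrs, hcd p hp q hq hpq, hcd p hp r hrR hpr,
      hcd p hp s hsR hps, hcd q hq r hrR hqr, hcd q hq s hsR hqs, hcd r hrR s hsR hrs, hdpq, hdrs,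
      Finset.sum_insert (by simp [hpq, hpr, hps]), Finset.sum_insert (by simp [hqr, hqs]),
      Finset.sum_pair hrs]
    generalize E c R + ∑ i ∈ R, l i = x
    generalize d q = y
    generalize d s = z
    generalize l p = a1
    generalize l q = a2
    generalize l r = a3
    generalize l s = a4
    have kx := K_add_self x
    have ky := K_add_self y
    have kz := K_add_self z
    have k1 := K_add_self a1
    have k2 := K_add_self a2
    have k3 := K_add_self a3
    have k4 := K_add_self a4
    have : a1 + (a2 + (a3 + a4)) + (x + (y + a1) + (y + a2) + (x + (y + a1) + (z + a3))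
        + (x + (y + a1) + (z + a4)) + (x + (y + a2) + (z + a3)) + (x + (y + a2) + (z + a4))
        + (x + (z + a3) + (z + a4)))
        = (x + x) + (x + x) + (x + x) + ((y + y) + (y + y) + (y + y)) + ((z + z) + (z + z)
        + (z + z)) + ((a1 + a1) + (a1 + a1)) + ((a2 + a2) + (a2 + a2)) + ((a3 + a3) + (a3 + a3))
        + ((a4 + a4) + (a4 + a4)) := by abel
    rw [this, kx, ky, kz, k1, k2, k3, k4]
    simp

theorem sum_edges {n : ℕ} (G : SimpleGraph (Fin n)) [DecidableRel G.Adj] {M : Type*}
    [AddCommMonoid M] (F : Sym2 (Fin n) → M) :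
    ∑ u, ∑ v, (if u < v ∧ G.Adj u v then F s(u, v) else 0) = ∑ e ∈ G.edgeFinset, F e := by
  rw [← Finset.sum_product', ← Finset.sum_filter]
  refine Finset.sum_bij (fun p _ => s(p.1, p.2)) ?_ ?_ ?_ ?_
  · intro p hp
    rw [Finset.mem_filter] at hp
    rw [SimpleGraph.mem_edgeFinset]
    exact hp.2.2
  · intro p hp q hq hpq
    rw [Finset.mem_filter] at hp hq
    rcases Sym2.eq_iff.1 hpq with ⟨h1, h2⟩ | ⟨h1, h2⟩
    · exact Prod.ext h1 h2
    · exfalso
      have a1 := hp.2.1
      have a2 := hq.2.1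
      rw [h1, h2] at a1
      exact lt_asymm a1 a2
  · intro e he
    induction e with
    | _ u v =>
    rw [SimpleGraph.mem_edgeFinset, SimpleGraph.mem_edgeSet] at he
    rcases lt_or_gt_of_ne he.ne with h | h
    · exact ⟨(u, v), Finset.mem_filter.2 ⟨by simp, h, he⟩, rfl⟩
    · exact ⟨(v, u), Finset.mem_filter.2 ⟨by simp, h, he.symm⟩, Sym2.eq_swap⟩
  · intro p _
    rfl


theorem E_pair {V : Type*} [LinearOrder V] (c : V → V → K) (hc : ∀ i j, c i j = c j i)
    (p q : V) (h1 : p ≠ q) : E c {p, q} = c p q := by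
  rw [E_insert c hc _ _ (by simpa using h1), E_single, Finset.sum_singleton, zero_add]

theorem E_three {V : Type*} [LinearOrder V] (c : V → V → K) (hc : ∀ i j, c i j = c j i)
    (p q r : V) (h1 : p ≠ q) (h2 : p ≠ r) (h3 : q ≠ r) :
    E c {p, q, r} = c p q + c p r + c q r := by
  rw [E_insert c hc _ _ (by simp [h1, h2]), E_pair c hc _ _ h3, Finset.sum_pair h3]
  abel

theorem exists_sub {V : Type*} [DecidableEq V] (S : Finset V) (k : ℕ) (h : k ≤ S.card) :
    ∃ T ⊆ S, T.card = k := Finset.exists_subset_card_eq h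

theorem K_ne {a b : K} (h : a + b ≠ 0) : a ≠ b := by
  rintro rfl
  exact h (K_add_self a)

/-- ten points: two disjoint edges with the same colour. -/
theorem two_two {N : ℕ} (c : Fin N → Fin N → K) (hc : ∀ i j, c i j = c j i)
    (R : Finset (Fin N)) (hR : R.card = 10) :
    ∃ T1 ⊆ R, ∃ T2 ⊆ R, Disjoint T1 T2 ∧ T1.card = 2 ∧ T2.card = 2 ∧ E c T1 + E c T2 = 0 := by
  let g : Fin 10 → Fin N := fun i => ((R.equivFinOfCardEq hR).symm i : Fin N)
  have hg : Function.Injective g := fun i j hij =>
    (R.equivFinOfCardEq hR).symm.injective (Subtype.ext hij)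
  have hgR : ∀ i, g i ∈ R := fun i => ((R.equivFinOfCardEq hR).symm i).2
  obtain ⟨i, j, hij, h⟩ := Fintype.exists_ne_map_eq_of_card_lt
    (fun i : Fin 5 => c (g ⟨2 * i.val, by omega⟩) (g ⟨2 * i.val + 1, by omega⟩)) (by decide)
  have hij' : i.val ≠ j.val := fun h => hij (Fin.ext h)
  have n1 : ∀ a b : Fin 10, a.val ≠ b.val → g a ≠ g b := fun a b hab h =>
    hab (congrArg Fin.val (hg h))
  refine ⟨{g ⟨2 * i.val, by omega⟩, g ⟨2 * i.val + 1, by omega⟩}, ?_,
    {g ⟨2 * j.val, by omega⟩, g ⟨2 * j.val + 1, by omega⟩}, ?_, ?_, ?_, ?_, ?_⟩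
  · intro x hx
    simp only [Finset.mem_insert, Finset.mem_singleton] at hx
    rcases hx with rfl | rfl <;> exact hgR _
  · intro x hx
    simp only [Finset.mem_insert, Finset.mem_singleton] at hx
    rcases hx with rfl | rfl <;> exact hgR _
  · rw [Finset.disjoint_left]
    intro x hx hy
    simp only [Finset.mem_insert, Finset.mem_singleton] at hx hy
    rcases hx with rfl | rfl <;> rcases hy with hy | hy
    · exact n1 _ _ (by simp only; omega) hy
    · exact n1 _ _ (by simp only; omega) hy
    · exact n1 _ _ (by simp only; omega) hy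
    · exact n1 _ _ (by simp only; omega) hy
  · exact Finset.card_pair (n1 _ _ (by simp only; omega))
  · exact Finset.card_pair (n1 _ _ (by simp only; omega))
  · rw [E_pair c hc _ _ (n1 _ _ (by simp only; omega)),
      E_pair c hc _ _ (n1 _ _ (by simp only; omega)), h, K_add_self]

/-- all triangle sums in `M` lie in one coset of `{0, d}`. -/
def P3 {V : Type*} [LinearOrder V] (c : V → V → K) (M : Finset V) (d : K) : Prop :=
  ∀ T ⊆ M, ∀ T' ⊆ M, T.card = 3 → T'.card = 3 → E c T + E c T' = 0 ∨ E c T + E c T' = d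

theorem coset_trans : ∀ x y z d : K, (x + z = 0 ∨ x + z = d) → (z + y = 0 ∨ z + y = d) →
    (x + y = 0 ∨ x + y = d) := by
  decide

theorem coset_base00 : ∀ a b e : K,
    e = 0 ∨ a = 0 ∨ a + e = 0 ∨ b = 0 ∨ b + e = 0 ∨ a + b = 0 ∨ a + b = e := by
  decide

theorem coset_base0 (a b e : K) (h1 : e ≠ 0) (h2 : a ≠ 0) (h3 : a + e ≠ 0) (h4 : b ≠ 0)
    (h5 : b + e ≠ 0) : (a + b = 0 ∨ a + b = e) := by
  rcases coset_base00 a b e with h | h | h | h | h | h
  · exact absurd h h1
  · exact absurd h h2
  · exact absurd h h3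
  · exact absurd h h4
  · exact absurd h h5
  · exact h

theorem K_mid (x z w : K) : (x + z) + (z + w) = x + w := by
  have : (x + z) + (z + w) = (z + z) + (x + w) := by abel
  rw [this, K_add_self, zero_add]

theorem coset_base (x y z w : K) (h1 : z + w ≠ 0) (h2 : x + z ≠ 0) (h3 : x + w ≠ 0)
    (h4 : y + z ≠ 0) (h5 : y + w ≠ 0) : (x + y = 0 ∨ x + y = z + w) := by
  have k := coset_base0 (x + z) (y + z) (z + w) h1 h2 (by rwa [K_mid]) h4 (by rwa [K_mid])
  rwa [add_comm y z, K_mid] at k

theorem coset_three : ∀ x y z d : K, x + y ≠ 0 → x + z ≠ 0 → y + z ≠ 0 →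
    (x + y = 0 ∨ x + y = d) → (x + z = 0 ∨ x + z = d) → (y + z = 0 ∨ y + z = d) → False := by
  decide

theorem P3_step {V : Type*} [LinearOrder V] (c : V → V → K) (hc : ∀ i j, c i j = c j i)
    (M : Finset V) (hM : 7 ≤ M.card) (h : ∀ v ∈ M, ∃ d, d ≠ 0 ∧ P3 c (M.erase v) d) :
    ∃ d, d ≠ 0 ∧ P3 c M d := by
  classical
  have h' : ∀ v : V, ∃ d, v ∈ M → d ≠ 0 ∧ P3 c (M.erase v) d := by
    intro v
    by_cases hv : v ∈ M
    · obtain ⟨d, hd⟩ := h v hv
      exact ⟨d, fun _ => hd⟩
    · exact ⟨0, fun h => absurd h hv⟩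
  choose D hD using h'
  have hmap : ∀ v ∈ M, D v ∈ (Finset.univ.erase (0 : K)) := fun v hv =>
    Finset.mem_erase.2 ⟨(hD v hv).1, Finset.mem_univ _⟩
  have hc3 : (Finset.univ.erase (0 : K)).card * 2 < M.card := by
    have : (Finset.univ.erase (0 : K)).card = 3 := by decide
    omega
  obtain ⟨d, hd, hfib⟩ := Finset.exists_lt_card_fiber_of_mul_lt_card_of_maps_to hmap hc3
  obtain ⟨v1, m1, v2, m2, v3, m3, n12, n13, n23⟩ := Finset.two_lt_card.1 hfib
  rw [Finset.mem_filter] at m1 m2 m3
  have hgood1 : ∀ v ∈ M, D v = d → P3 c (M.erase v) d := fun v hv hvd => hvd ▸ (hD v hv).2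
  have g1 := hgood1 v1 m1.1 m1.2
  have g2 := hgood1 v2 m2.1 m2.2
  have g3 := hgood1 v3 m3.1 m3.2
  have hsub : ∀ (T : Finset V) (v : V), T ⊆ M → v ∉ T → T ⊆ M.erase v := by
    intro T v hT hv x hx
    exact Finset.mem_erase.2 ⟨fun h => hv (h ▸ hx), hT hx⟩
  have hcross : ∀ v v' : V, v ∈ M → v' ∈ M → P3 c (M.erase v) d → P3 c (M.erase v') d →
      ∀ T ⊆ M, ∀ T' ⊆ M, v ∉ T → v' ∉ T' → T.card = 3 → T'.card = 3 →
      E c T + E c T' = 0 ∨ E c T + E c T' = d := by
    intro v v' hv hv' p p' T hT T' hT' hvT hvT' hTc hTc'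
    have hcard : 3 ≤ ((M.erase v).erase v').card := by
      have a1 := Finset.card_erase_of_mem hv
      have a2 : (M.erase v).card - 1 ≤ ((M.erase v).erase v').card := Finset.pred_card_le_card_erase
      omega
    obtain ⟨T'', hT'', hc''⟩ := exists_sub _ 3 hcard
    have s1 : T'' ⊆ M.erase v := hT''.trans (Finset.erase_subset _ _)
    have s2 : T'' ⊆ M.erase v' := by
      intro x hx
      have := hT'' hx
      simp only [Finset.mem_erase] at this ⊢
      exact ⟨this.1, this.2.2⟩
    exact coset_trans _ _ _ _ (p T (hsub T v hT hvT) T'' s1 hTc hc'')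
      (p' T'' s2 T' (hsub T' v' hT' hvT') hc'' hTc')
  refine ⟨d, (Finset.mem_erase.1 hd).1, ?_⟩
  obtain ⟨x, hx⟩ : (((M.erase v1).erase v2).erase v3).Nonempty := by
    rw [← Finset.card_pos]
    have a1 := Finset.card_erase_of_mem m1.1
    have a2 : (M.erase v1).card - 1 ≤ ((M.erase v1).erase v2).card :=
      Finset.pred_card_le_card_erase
    have a3 : ((M.erase v1).erase v2).card - 1 ≤ (((M.erase v1).erase v2).erase v3).card :=
      Finset.pred_card_le_card_erase
    omega
  simp only [Finset.mem_erase] at hx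
  obtain ⟨x3, x2, x1, xM⟩ := hx
  -- reference triangle
  have hrefM : ({v1, v2, x} : Finset V) ⊆ M := by
    intro y hy
    simp only [Finset.mem_insert, Finset.mem_singleton] at hy
    rcases hy with rfl | rfl | rfl
    exacts [m1.1, m2.1, xM]
  have hrefc : ({v1, v2, x} : Finset V).card = 3 := by
    rw [Finset.card_eq_three]; exact ⟨v1, v2, x, n12, x1.symm, x2.symm, rfl⟩
  have href3 : v3 ∉ ({v1, v2, x} : Finset V) := by
    simp [n13.symm, n23.symm, x3.symm]
  have hall : ∀ T ⊆ M, T.card = 3 → E c T + E c {v1, v2, x} = 0 ∨ E c T + E c {v1, v2, x} = d := by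
    intro T hT hTc
    by_cases k1 : v1 ∈ T
    · by_cases k2 : v2 ∈ T
      · by_cases k3 : v3 ∈ T
        · have hTe : T = {v1, v2, v3} := by
            refine (Finset.eq_of_subset_of_card_le ?_ ?_).symm
            · intro y hy
              simp only [Finset.mem_insert, Finset.mem_singleton] at hy
              rcases hy with rfl | rfl | rfl <;> assumption
            · rw [hTc, Finset.card_eq_three.2 ⟨v1, v2, v3, n12, n13, n23, rfl⟩]
          have key : E c T + E c {v1, v2, x} = E c {v1, v3, x} + E c {v2, v3, x} := by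
            rw [hTe, E_three c hc _ _ _ n12 n13 n23, E_three c hc _ _ _ n12 x1.symm x2.symm,
              E_three c hc _ _ _ n13 x1.symm x3.symm, E_three c hc _ _ _ n23 x2.symm x3.symm]
            have e1 := K_add_self (c v1 v2)
            have e2 := K_add_self (c v3 x)
            have l : c v1 v2 + c v1 v3 + c v2 v3 + (c v1 v2 + c v1 x + c v2 x)
                = (c v1 v2 + c v1 v2) + (c v1 v3 + c v2 v3 + c v1 x + c v2 x) := by abel
            have r : c v1 v3 + c v1 x + c v3 x + (c v2 v3 + c v2 x + c v3 x)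
                = (c v3 x + c v3 x) + (c v1 v3 + c v2 v3 + c v1 x + c v2 x) := by abel
            rw [l, r, e1, e2]
          rw [key]
          refine hcross v2 v1 m2.1 m1.1 g2 g1 _ ?_ _ ?_ ?_ ?_ ?_ ?_
          · intro y hy
            simp only [Finset.mem_insert, Finset.mem_singleton] at hy
            rcases hy with rfl | rfl | rfl
            exacts [m1.1, m3.1, xM]
          · intro y hy
            simp only [Finset.mem_insert, Finset.mem_singleton] at hy
            rcases hy with rfl | rfl | rfl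
            exacts [m2.1, m3.1, xM]
          · simp [n12.symm, n23, x2.symm]
          · simp [n12, n13, x1.symm]
          · rw [Finset.card_eq_three]; exact ⟨v1, v3, x, n13, x1.symm, x3.symm, rfl⟩
          · rw [Finset.card_eq_three]; exact ⟨v2, v3, x, n23, x2.symm, x3.symm, rfl⟩
        · exact hcross v3 v3 m3.1 m3.1 g3 g3 T hT _ hrefM k3 href3 hTc hrefc
      · exact hcross v2 v3 m2.1 m3.1 g2 g3 T hT _ hrefM k2 href3 hTc hrefc
    · exact hcross v1 v3 m1.1 m3.1 g1 g3 T hT _ hrefM k1 href3 hTc hrefc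
  intro T hT T' hT' hTc hTc'
  have a1 := hall T hT hTc
  have a2 := hall T' hT' hTc'
  rw [add_comm (E c T')] at a2
  exact coset_trans _ _ _ _ a1 a2

/-- twelve points: two disjoint triangles with the same sum. -/
theorem three_three {V : Type*} [LinearOrder V] (c : V → V → K) (hc : ∀ i j, c i j = c j i)
    (R : Finset V) (hR : R.card = 12) :
    ∃ T1 ⊆ R, ∃ T2 ⊆ R, Disjoint T1 T2 ∧ T1.card = 3 ∧ T2.card = 3 ∧ E c T1 + E c T2 = 0 := by
  by_contra hno
  have hno' : ∀ T1 ⊆ R, ∀ T2 ⊆ R, Disjoint T1 T2 → T1.card = 3 → T2.card = 3 →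
      E c T1 + E c T2 ≠ 0 := fun T1 h1 T2 h2 h3 h4 h5 h6 => hno ⟨T1, h1, T2, h2, h3, h4, h5, h6⟩
  have hP : ∀ m : ℕ, 6 ≤ m → ∀ M ⊆ R, M.card = m → ∃ d, d ≠ 0 ∧ P3 c M d := by
    intro m hm
    induction m, hm using Nat.le_induction with
    | base =>
      intro M hM hMc
      have hcR : (R \ M).card = 6 := by rw [Finset.card_sdiff_of_subset hM, hR, hMc]
      obtain ⟨T3, hT3, c3⟩ := exists_sub (R \ M) 3 (by omega)
      obtain ⟨T4, hT4, c4⟩ := exists_sub ((R \ M) \ T3) 3 (by
        rw [Finset.card_sdiff_of_subset hT3, hcR, c3])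
      have r3 : T3 ⊆ R := hT3.trans Finset.sdiff_subset
      have r4 : T4 ⊆ R := hT4.trans (Finset.sdiff_subset.trans Finset.sdiff_subset)
      have d34 : Disjoint T3 T4 := Finset.disjoint_of_subset_right hT4 Finset.disjoint_sdiff
      have dM3 : ∀ T ⊆ M, Disjoint T T3 := fun T hT =>
        Finset.disjoint_of_subset_left hT (Finset.disjoint_of_subset_right hT3
          Finset.disjoint_sdiff)
      have dM4 : ∀ T ⊆ M, Disjoint T T4 := fun T hT =>
        Finset.disjoint_of_subset_left hT (Finset.disjoint_of_subset_right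
          (hT4.trans Finset.sdiff_subset) Finset.disjoint_sdiff)
      refine ⟨E c T3 + E c T4, hno' T3 r3 T4 r4 d34 c3 c4, ?_⟩
      intro T hT T' hT' hTc hTc'
      exact coset_base _ _ _ _ (hno' T3 r3 T4 r4 d34 c3 c4)
        (hno' T (hT.trans hM) T3 r3 (dM3 T hT) hTc c3)
        (hno' T (hT.trans hM) T4 r4 (dM4 T hT) hTc c4)
        (hno' T' (hT'.trans hM) T3 r3 (dM3 T' hT') hTc' c3)
        (hno' T' (hT'.trans hM) T4 r4 (dM4 T' hT') hTc' c4)
    | succ m hm ih =>
      intro M hM hMc
      refine P3_step c hc M (by omega) (fun v hv => ih _ ((Finset.erase_subset _ _).trans hM) ?_)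
      rw [Finset.card_erase_of_mem hv, hMc]
      rfl
  obtain ⟨M, hM, hMc⟩ := exists_sub R 9 (by omega)
  obtain ⟨d, hd, hPd⟩ := hP 9 (by norm_num) M hM hMc
  obtain ⟨T1, hT1, c1⟩ := exists_sub M 3 (by omega)
  obtain ⟨T2, hT2, c2⟩ := exists_sub (M \ T1) 3 (by
    rw [Finset.card_sdiff_of_subset hT1]; omega)
  obtain ⟨T3, hT3, c3⟩ := exists_sub ((M \ T1) \ T2) 3 (by
    rw [Finset.card_sdiff_of_subset hT2, Finset.card_sdiff_of_subset hT1]; omega)
  have s2 : T2 ⊆ M := hT2.trans Finset.sdiff_subset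
  have s3 : T3 ⊆ M := hT3.trans (Finset.sdiff_subset.trans Finset.sdiff_subset)
  have d12 : Disjoint T1 T2 := Finset.disjoint_of_subset_right hT2 Finset.disjoint_sdiff
  have d13 : Disjoint T1 T3 := Finset.disjoint_of_subset_right (hT3.trans Finset.sdiff_subset)
    Finset.disjoint_sdiff
  have d23 : Disjoint T2 T3 := Finset.disjoint_of_subset_right hT3 Finset.disjoint_sdiff
  exact coset_three _ _ _ d
    (hno' T1 (hT1.trans hM) T2 (s2.trans hM) d12 c1 c2)
    (hno' T1 (hT1.trans hM) T3 (s3.trans hM) d13 c1 c3)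
    (hno' T2 (s2.trans hM) T3 (s3.trans hM) d23 c2 c3)
    (hPd T1 hT1 T2 s2 c1 c2) (hPd T1 hT1 T3 s3 c1 c3) (hPd T2 s2 T3 s3 c2 c3)


theorem K_five0 : ∀ a b c d e : K, a = b ∨ a = c ∨ a = d ∨ b = c ∨ b = d ∨ c = d ∨
    e = a ∨ e = b ∨ e = c ∨ e = d := by
  decide +kernel

theorem K_five (a b c d : K) (h1 : a ≠ b) (h2 : a ≠ c) (h3 : a ≠ d) (h4 : b ≠ c) (h5 : b ≠ d)
    (h6 : c ≠ d) (e : K) : e = a ∨ e = b ∨ e = c ∨ e = d := by
  rcases K_five0 a b c d e with h | h | h | h | h | h | h
  · exact absurd h h1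
  · exact absurd h h2
  · exact absurd h h3
  · exact absurd h h4
  · exact absurd h h5
  · exact absurd h h6
  · exact h

theorem K_five' (a b c d e : K) (h1 : a ≠ b) (h2 : a ≠ c) (h3 : b ≠ c) (h4 : d ≠ a) (h5 : d ≠ b)
    (h6 : d ≠ c) (h7 : e ≠ a) (h8 : e ≠ b) (h9 : e ≠ c) : d = e := by
  rcases K_five a b c d h1 h2 h4.symm h3 h5.symm h6.symm e with h | h | h | h
  · exact absurd h h7
  · exact absurd h h8
  · exact absurd h h9
  · exact h.symm

theorem K_sum3 (a b x y z : K) (hx : x = a ∨ x = b) (hy : y = a ∨ y = b) (hz : z = a ∨ z = b) :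
    (x + y + z = a ∨ x + y + z = b) := by
  rcases hx with rfl | rfl <;> rcases hy with rfl | rfl <;> rcases hz with rfl | rfl <;>
    simp [K_add_self, add_comm, add_left_comm]

/-- eleven points: a triangle and a disjoint edge with the same sum. -/
theorem two_three {V : Type*} [LinearOrder V] (c : V → V → K) (hc : ∀ i j, c i j = c j i)
    (R : Finset V) (hR : R.card = 11) :
    ∃ T1 ⊆ R, ∃ T2 ⊆ R, Disjoint T1 T2 ∧ T1.card = 2 ∧ T2.card = 3 ∧ E c T1 + E c T2 = 0 := by
  by_contra hno
  have hno' : ∀ T1 ⊆ R, ∀ T2 ⊆ R, Disjoint T1 T2 → T1.card = 2 → T2.card = 3 →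
      E c T2 ≠ E c T1 := fun T1 h1 T2 h2 h3 h4 h5 h6 =>
    hno ⟨T1, h1, T2, h2, h3, h4, h5, by rw [h6, K_add_self]⟩
  obtain ⟨e0, he0, c0⟩ := exists_sub R 2 (by omega)
  have hV : (R \ e0).card = 9 := by rw [Finset.card_sdiff_of_subset he0, hR, c0]
  have hsub : ∀ T ⊆ R \ e0, T ⊆ R ∧ Disjoint e0 T := fun T hT =>
    ⟨hT.trans Finset.sdiff_subset, Finset.disjoint_of_subset_right hT Finset.disjoint_sdiff⟩
  -- triangle sums outside `e0`
  have hz : ∀ T ⊆ R \ e0, T.card = 3 → E c T ≠ E c e0 := fun T hT hTc =>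
    hno' e0 he0 T (hsub T hT).1 (hsub T hT).2 c0 hTc
  have hfT : ∀ f ⊆ R \ e0, ∀ T ⊆ R \ e0, f.card = 2 → T.card = 3 → Disjoint f T →
      E c T ≠ E c f := fun f hf T hT hfc hTc hd =>
    hno' f (hsub f hf).1 T (hsub T hT).1 hd hfc hTc
  -- claim 1: three edges
  have claim1 : ∀ f1 ⊆ R \ e0, ∀ f2 ⊆ R \ e0, ∀ f3 ⊆ R \ e0, f1.card = 2 → f2.card = 2 →
      f3.card = 2 → E c e0 ≠ E c f1 → E c e0 ≠ E c f2 → E c f1 ≠ E c f2 →
      E c f3 = E c e0 ∨ E c f3 = E c f1 ∨ E c f3 = E c f2 := by
    intro f1 h1 f2 h2 f3 h3 d1 d2 d3 n1 n2 n3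
    by_contra hcon
    rw [not_or, not_or] at hcon
    have hle : (f1 ∪ f2 ∪ f3).card ≤ 6 := by
      have a1 := Finset.card_union_le (f1 ∪ f2) f3
      have a2 := Finset.card_union_le f1 f2
      omega
    have hcard : 3 ≤ ((R \ e0) \ (f1 ∪ f2 ∪ f3)).card := by
      have := Finset.le_card_sdiff (f1 ∪ f2 ∪ f3) (R \ e0)
      omega
    obtain ⟨T, hT, hTc⟩ := exists_sub _ 3 hcard
    have hTV : T ⊆ R \ e0 := hT.trans Finset.sdiff_subset
    have hd : Disjoint (f1 ∪ f2 ∪ f3) T :=
      Finset.disjoint_of_subset_right hT Finset.disjoint_sdiff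
    rw [Finset.disjoint_union_left, Finset.disjoint_union_left] at hd
    have k0 := hz T hTV hTc
    have k1 := hfT f1 h1 T hTV d1 hTc hd.1.1
    have k2 := hfT f2 h2 T hTV d2 hTc hd.1.2
    have k3 := hfT f3 h3 T hTV d3 hTc hd.2
    exact k3 (K_five' _ _ _ _ _ n1 n2 n3 hcon.1 hcon.2.1 hcon.2.2 k0 k1 k2).symm
  -- claim 2: two edges
  have claim2 : ∀ f1 ⊆ R \ e0, ∀ f2 ⊆ R \ e0, f1.card = 2 → f2.card = 2 →
      E c e0 ≠ E c f1 → E c e0 ≠ E c f2 → E c f1 = E c f2 := by
    intro f1 h1 f2 h2 d1 d2 n1 n2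
    by_contra n3
    have hle : (f1 ∪ f2).card ≤ 4 := by
      have a2 := Finset.card_union_le f1 f2
      omega
    have hcard : 5 ≤ ((R \ e0) \ (f1 ∪ f2)).card := by
      have := Finset.le_card_sdiff (f1 ∪ f2) (R \ e0)
      omega
    obtain ⟨U, hU, hUc⟩ := exists_sub _ 5 hcard
    have hUV : U ⊆ R \ e0 := hU.trans Finset.sdiff_subset
    have hd : Disjoint (f1 ∪ f2) U :=
      Finset.disjoint_of_subset_right hU Finset.disjoint_sdiff
    rw [Finset.disjoint_union_left] at hd
    -- the fourth value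
    obtain ⟨T0, hT0, hT0c⟩ := exists_sub U 3 (by omega)
    have hT : ∀ T ⊆ U, T.card = 3 → E c T ≠ E c e0 ∧ E c T ≠ E c f1 ∧ E c T ≠ E c f2 := by
      intro T hT hTc
      exact ⟨hz T (hT.trans hUV) hTc,
        hfT f1 h1 T (hT.trans hUV) d1 hTc (Finset.disjoint_of_subset_right hT hd.1),
        hfT f2 h2 T (hT.trans hUV) d2 hTc (Finset.disjoint_of_subset_right hT hd.2)⟩
    have hw := hT T0 hT0 hT0c
    have hsame : ∀ T ⊆ U, T.card = 3 → E c T = E c T0 := by
      intro T hT' hTc
      have h := hT T hT' hTc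
      exact K_five' _ _ _ _ _ n1 n2 n3 h.1 h.2.1 h.2.2 hw.1 hw.2.1 hw.2.2
    obtain ⟨u0, hu0⟩ : U.Nonempty := by rw [← Finset.card_pos]; omega
    have hpig : (Finset.univ.erase (E c T0)).card < (U.erase u0).card := by
      rw [Finset.card_erase_of_mem hu0, hUc, Finset.card_erase_of_mem (Finset.mem_univ _)]
      decide
    have hedge : ∀ x ∈ U, ∀ y ∈ U, x ≠ y → c x y ≠ E c T0 := by
      intro x hx y hy hxy hcxy
      have hsubxy : ({x, y} : Finset V) ⊆ R \ e0 := by
        intro z hz'
        simp only [Finset.mem_insert, Finset.mem_singleton] at hz'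
        rcases hz' with rfl | rfl
        exacts [hUV hx, hUV hy]
      have := claim1 f1 h1 f2 h2 {x, y} hsubxy d1 d2 (Finset.card_pair hxy) n1 n2 n3
      rw [E_pair c hc x y hxy, hcxy] at this
      rcases this with h | h | h
      · exact hw.1 h
      · exact hw.2.1 h
      · exact hw.2.2 h
    obtain ⟨x, hx, y, hy, hxy, heq⟩ := Finset.exists_ne_map_eq_of_card_lt_of_maps_to hpig
      (f := fun x => c u0 x) (fun x hx => Finset.mem_erase.2
        ⟨hedge u0 hu0 x (Finset.mem_erase.1 hx).2 (Finset.mem_erase.1 hx).1.symm,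
          Finset.mem_univ _⟩)
    rw [Finset.mem_erase] at hx hy
    have hT3 : ({u0, x, y} : Finset V) ⊆ U := by
      intro z hz'
      simp only [Finset.mem_insert, Finset.mem_singleton] at hz'
      rcases hz' with rfl | rfl | rfl
      exacts [hu0, hx.2, hy.2]
    have hT3c : ({u0, x, y} : Finset V).card = 3 :=
      Finset.card_eq_three.2 ⟨u0, x, y, hx.1.symm, hy.1.symm, hxy, rfl⟩
    have h3 := hsame _ hT3 hT3c
    rw [E_three c hc _ _ _ hx.1.symm hy.1.symm hxy] at h3
    have heq' : c u0 x = c u0 y := heq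
    rw [heq', K_add_self, zero_add] at h3
    exact hedge x hx.2 y hy.2 hxy h3
  -- all edges in one pair of values
  have htri : ∀ (a b : K), (∀ f ⊆ R \ e0, f.card = 2 → E c f = a ∨ E c f = b) →
      ∀ T ⊆ R \ e0, T.card = 3 → E c T = a ∨ E c T = b := by
    intro a b hab T hT hTc
    obtain ⟨x, y, z, hxy, hxz, hyz, rfl⟩ := Finset.card_eq_three.1 hTc
    have hx : x ∈ R \ e0 := hT (by simp)
    have hy : y ∈ R \ e0 := hT (by simp)
    have hz' : z ∈ R \ e0 := hT (by simp)
    have hp : ∀ u ∈ R \ e0, ∀ v ∈ R \ e0, u ≠ v → c u v = a ∨ c u v = b := by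
      intro u hu v hv huv
      have hs : ({u, v} : Finset V) ⊆ R \ e0 := by
        intro w hw
        simp only [Finset.mem_insert, Finset.mem_singleton] at hw
        rcases hw with rfl | rfl <;> assumption
      have := hab {u, v} hs (Finset.card_pair huv)
      rwa [E_pair c hc _ _ huv] at this
    rw [E_three c hc _ _ _ hxy hxz hyz]
    exact K_sum3 a b _ _ _ (hp x hx y hy hxy) (hp x hx z hz' hxz) (hp y hy z hz' hyz)
  by_cases hall : ∀ f ⊆ R \ e0, f.card = 2 → E c f = E c e0
  · obtain ⟨T, hT, hTc⟩ := exists_sub (R \ e0) 3 (by omega)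
    have := htri (E c e0) (E c e0) (fun f hf hfc => Or.inl (hall f hf hfc)) T hT hTc
    rcases this with h | h <;> exact hz T hT hTc h
  · push Not at hall
    obtain ⟨f1, h1, d1, n1⟩ := hall
    have hall2 : ∀ f ⊆ R \ e0, f.card = 2 → E c f = E c e0 ∨ E c f = E c f1 := by
      intro f hf hfc
      by_cases h : E c f = E c e0
      · exact Or.inl h
      · exact Or.inr (claim2 f hf f1 h1 hfc d1 (fun h' => h h'.symm) (fun h' => n1 h'.symm))
    have hcard : 3 ≤ ((R \ e0) \ f1).card := by
      rw [Finset.card_sdiff_of_subset h1]; omega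
    obtain ⟨T, hT, hTc⟩ := exists_sub _ 3 hcard
    have hTV : T ⊆ R \ e0 := hT.trans Finset.sdiff_subset
    have hd : Disjoint f1 T := Finset.disjoint_of_subset_right hT Finset.disjoint_sdiff
    rcases htri _ _ hall2 T hTV hTc with h | h
    · exact hz T hTV hTc h
    · exact hfT f1 h1 T hTV d1 hTc hd h


/-! ### Even independent sets -/

theorem inj_exists {α β : Type*} [DecidableEq α] [DecidableEq β] [Nonempty β] (A : Finset α)
    (S : Finset β) (h : A.card ≤ S.card) :
    ∃ g : α → β, Set.InjOn g (A : Set α) ∧ ∀ a ∈ A, g a ∈ S := by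
  obtain ⟨T, hT, hTc⟩ := Finset.exists_subset_card_eq h
  let e := Finset.equivOfCardEq hTc.symm
  refine ⟨fun x => if hx : x ∈ A then (e ⟨x, hx⟩ : β) else Classical.arbitrary β, ?_, ?_⟩
  · intro a ha b hb hab
    have ha' : a ∈ A := ha
    have hb' : b ∈ A := hb
    simp only [dif_pos ha', dif_pos hb'] at hab
    exact congrArg Subtype.val (e.injective (Subtype.ext hab))
  · intro a ha
    simp only [dif_pos ha]
    exact hT (e ⟨a, ha⟩).2

theorem inj_extend {α β : Type*} [DecidableEq α] [DecidableEq β] (l : α → β → K) (A : Finset α)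
    (S : Finset β) (g : α → β) (hg : Set.InjOn g (A : Set α)) (hgS : ∀ a ∈ A, g a ∈ S)
    (a : α) (ha : a ∉ A) (s : β) (hs : s ∉ S) :
    Set.InjOn (Function.update g a s) ((insert a A : Finset α) : Set α) ∧
      (∀ x ∈ insert a A, Function.update g a s x ∈ insert s S) ∧
      ∑ x ∈ insert a A, l x (Function.update g a s x) = l a s + ∑ x ∈ A, l x (g x) := by
  have hne : ∀ x ∈ A, x ≠ a := fun x hx h => ha (h ▸ hx)
  have hup : ∀ x ∈ A, Function.update g a s x = g x := fun x hx =>
    Function.update_of_ne (hne x hx) _ _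
  refine ⟨?_, ?_, ?_⟩
  · intro x hx y hy hxy
    simp only [Finset.coe_insert, Set.mem_insert_iff, Finset.mem_coe] at hx hy
    rcases hx with rfl | hx <;> rcases hy with rfl | hy
    · rfl
    · rw [Function.update_self, hup y hy] at hxy
      exact absurd (hxy ▸ hgS y hy) hs
    · rw [Function.update_self, hup x hx] at hxy
      exact absurd (hxy ▸ hgS x hx) hs
    · rw [hup x hx, hup y hy] at hxy
      exact hg hx hy hxy
  · intro x hx
    rw [Finset.mem_insert] at hx
    rcases hx with rfl | hx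
    · rw [Function.update_self]; exact Finset.mem_insert_self _ _
    · rw [hup x hx]; exact Finset.mem_insert_of_mem (hgS x hx)
  · rw [Finset.sum_insert ha, Function.update_self]
    congr 1
    exact Finset.sum_congr rfl fun x hx => by rw [hup x hx]

theorem sum_coset {α : Type*} [DecidableEq α] (W : Finset α) (F : α → K) (d : K)
    (h : ∀ w ∈ W, F w = 0 ∨ F w = d) : ∑ w ∈ W, F w = 0 ∨ ∑ w ∈ W, F w = d := by
  induction W using Finset.induction_on with
  | empty => left; simp
  | insert a W ha ih =>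
    rw [Finset.sum_insert ha]
    have h1 := h a (Finset.mem_insert_self _ _)
    have h2 := ih (fun w hw => h w (Finset.mem_insert_of_mem hw))
    rcases h1 with h1 | h1 <;> rcases h2 with h2 | h2 <;> rw [h1, h2]
    · left; simp
    · right; simp
    · right; simp
    · left; exact K_add_self d

theorem K_span : ∀ x d e : K, d = 0 ∨ e = 0 ∨ e = d ∨ x = 0 ∨ x + d = 0 ∨ x + e = 0 ∨
    x + d + e = 0 := by
  decide

theorem even_indep {α β : Type*} [DecidableEq α] [DecidableEq β] (l : α → β → K) (W : Finset α)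
    (R : Finset β) (hl : ∀ t ∈ R, ∑ w ∈ W, l w t = 0) (hR : W.card + 3 ≤ R.card) :
    ∃ τ : α → β, Set.InjOn τ (W : Set α) ∧ (∀ w ∈ W, τ w ∈ R) ∧ ∑ w ∈ W, l w (τ w) = 0 := by
  obtain ⟨r0, hr0⟩ : R.Nonempty := by rw [← Finset.card_pos]; omega
  have : Nonempty β := ⟨r0⟩
  by_cases hconst : ∀ w ∈ W, ∀ t ∈ R, ∀ t' ∈ R, l w t = l w t'
  · obtain ⟨g, hg, hgR⟩ := inj_exists W R (by omega)
    refine ⟨g, hg, hgR, ?_⟩
    rw [← hl r0 hr0]
    exact Finset.sum_congr rfl fun w hw => hconst w hw _ (hgR w hw) _ hr0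
  · push Not at hconst
    obtain ⟨w1, hw1, t, ht, t', ht', hne⟩ := hconst
    by_contra hno
    have hno' : ∀ τ : α → β, Set.InjOn τ (W : Set α) → (∀ w ∈ W, τ w ∈ R) →
        ∑ w ∈ W, l w (τ w) ≠ 0 := fun τ h1 h2 h3 => hno ⟨τ, h1, h2, h3⟩
    obtain ⟨d, hd⟩ : ∃ d, d = l w1 t + l w1 t' := ⟨_, rfl⟩
    have hd0 : d ≠ 0 := by
      intro h
      rw [hd] at h
      exact hne (K_eq _ _ h)
    have htt : t ≠ t' := fun h => hne (by rw [h])
    obtain ⟨R', hR'⟩ : ∃ R' : Finset β, R' = (R.erase t).erase t' := ⟨_, rfl⟩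
    have ht'e : t' ∈ R.erase t := Finset.mem_erase.2 ⟨htt.symm, ht'⟩
    have hR'c : R'.card = R.card - 2 := by
      rw [hR', Finset.card_erase_of_mem ht'e, Finset.card_erase_of_mem ht]
      omega
    have hR'sub : ∀ s ∈ R', s ∈ R ∧ s ≠ t ∧ s ≠ t' := by
      intro s hs
      rw [hR', Finset.mem_erase, Finset.mem_erase] at hs
      exact ⟨hs.2.2, hs.2.1, hs.1⟩
    have hW1 : insert w1 (W.erase w1) = W := Finset.insert_erase hw1
    have claim : ∀ w ∈ W, w ≠ w1 → ∀ s ∈ R', ∀ s' ∈ R', l w s + l w s' = 0 ∨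
        l w s + l w s' = d := by
      intro w hw hww s hs s' hs'
      by_contra hcon
      rw [not_or] at hcon
      have hss : s ≠ s' := by
        rintro rfl
        exact hcon.1 (K_add_self _)
      have hwe : w ∈ W.erase w1 := Finset.mem_erase.2 ⟨hww, hw⟩
      obtain ⟨S, hS⟩ : ∃ S : Finset β, S = (R'.erase s).erase s' := ⟨_, rfl⟩
      have hs'e : s' ∈ R'.erase s := Finset.mem_erase.2 ⟨hss.symm, hs'⟩
      have hSc : S.card = R'.card - 2 := by
        rw [hS, Finset.card_erase_of_mem hs'e, Finset.card_erase_of_mem hs]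
        omega
      have hSR : ∀ x ∈ S, x ∈ R' ∧ x ≠ s ∧ x ≠ s' := by
        intro x hx
        rw [hS, Finset.mem_erase, Finset.mem_erase] at hx
        exact ⟨hx.2.2, hx.2.1, hx.1⟩
      have hWc : ((W.erase w1).erase w).card ≤ S.card := by
        rw [Finset.card_erase_of_mem hwe, Finset.card_erase_of_mem hw1, hSc, hR'c]
        omega
      obtain ⟨g, hg, hgS⟩ := inj_exists ((W.erase w1).erase w) S hWc
      have hins : insert w ((W.erase w1).erase w) = W.erase w1 := Finset.insert_erase hwe
      -- the four placements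
      have four : ∀ x ∈ R', (x = s ∨ x = s') → ∀ y, (y = t ∨ y = t') →
          l w1 y + (l w x + ∑ v ∈ (W.erase w1).erase w, l v (g v)) ≠ 0 := by
        intro x hx hxs y hyt
        have hxS : x ∉ S := by
          intro h
          have := hSR x h
          rcases hxs with h' | h'
          · exact this.2.1 h'
          · exact this.2.2 h'
        obtain ⟨a1, a2, a3⟩ := inj_extend l _ S g hg hgS w (by simp) x hxS
        rw [hins] at a1 a2 a3
        have hyS : y ∉ insert x S := by
          intro h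
          rw [Finset.mem_insert] at h
          rcases h with h | h
          · have := hR'sub x hx
            rcases hyt with h' | h'
            · exact this.2.1 (h.symm.trans h')
            · exact this.2.2 (h.symm.trans h')
          · have := hR'sub y (hSR y h).1
            rcases hyt with h' | h'
            · exact this.2.1 h'
            · exact this.2.2 h'
        obtain ⟨b1, b2, b3⟩ := inj_extend l _ _ _ a1 a2 w1 (by simp) y hyS
        rw [hW1] at b1 b2 b3
        intro h0
        refine hno' _ b1 ?_ (by rw [b3, a3]; exact h0)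
        intro v hv
        have := b2 v hv
        rw [Finset.mem_insert, Finset.mem_insert] at this
        rcases this with h | h | h
        · rw [h]; rcases hyt with h' | h'
          · rw [h']; exact ht
          · rw [h']; exact ht'
        · rw [h]; exact (hR'sub x hx).1
        · exact (hR'sub _ (hSR _ h).1).1
      obtain ⟨S0, hS0⟩ : ∃ S0, S0 = ∑ v ∈ (W.erase w1).erase w, l v (g v) := ⟨_, rfl⟩
      rw [← hS0] at four
      have f1 := four s hs (Or.inl rfl) t (Or.inl rfl)
      have f2 := four s hs (Or.inl rfl) t' (Or.inr rfl)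
      have f3 := four s' hs' (Or.inr rfl) t (Or.inl rfl)
      have f4 := four s' hs' (Or.inr rfl) t' (Or.inr rfl)
      rcases K_span (l w1 t + (l w s + S0)) d (l w s + l w s') with h | h | h | h | h | h | h
      · exact hd0 h
      · exact hcon.1 h
      · exact hcon.2 h
      · exact f1 h
      · apply f2
        rw [hd] at h
        have e : l w1 t + (l w s + S0) + (l w1 t + l w1 t')
            = (l w1 t + l w1 t) + (l w1 t' + (l w s + S0)) := by abel
        rwa [e, K_add_self, zero_add] at h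
      · apply f3
        have e : l w1 t + (l w s + S0) + (l w s + l w s')
            = (l w s + l w s) + (l w1 t + (l w s' + S0)) := by abel
        rwa [e, K_add_self, zero_add] at h
      · apply f4
        rw [hd] at h
        have e : l w1 t + (l w s + S0) + (l w1 t + l w1 t') + (l w s + l w s')
            = (l w1 t + l w1 t) + (l w s + l w s) + (l w1 t' + (l w s' + S0)) := by abel
        rwa [e, K_add_self, K_add_self, zero_add, zero_add] at h
    have claim' : ∀ w ∈ W, ∀ s ∈ R', ∀ s' ∈ R', l w s + l w s' = 0 ∨ l w s + l w s' = d := by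
      intro w hw s hs s' hs'
      by_cases hww : w = w1
      · have e : ∀ r ∈ R, l w1 r = ∑ v ∈ W.erase w1, l v r := by
          intro r hr
          have := hl r hr
          rw [← hW1, Finset.sum_insert (by simp)] at this
          exact K_eq _ _ this
        rw [hww, e s (hR'sub s hs).1, e s' (hR'sub s' hs').1, ← Finset.sum_add_distrib]
        refine sum_coset _ _ _ fun v hv => ?_
        rw [Finset.mem_erase] at hv
        exact claim v hv.2 hv.1 s hs s' hs'
      · exact claim w hw hww s hs s' hs'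
    -- all placements inside `R'` have sum in `{0, d}`
    have hall : ∀ τ : α → β, (∀ w ∈ W, τ w ∈ R') → ∑ w ∈ W, l w (τ w) = 0 ∨
        ∑ w ∈ W, l w (τ w) = d := by
      intro τ hτ
      obtain ⟨s0, hs0⟩ : R'.Nonempty := by rw [← Finset.card_pos]; omega
      have h := sum_coset W (fun w => l w (τ w) + l w s0) d
        (fun w hw => claim' w hw _ (hτ w hw) _ hs0)
      rw [Finset.sum_add_distrib, hl s0 (hR'sub s0 hs0).1, add_zero] at h
      exact h
    by_cases hc2 : ∀ w ∈ W, ∀ s ∈ R', ∀ s' ∈ R', l w s = l w s'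
    · obtain ⟨g, hg, hgR⟩ := inj_exists W R' (by omega)
      obtain ⟨s0, hs0⟩ : R'.Nonempty := by rw [← Finset.card_pos]; omega
      refine hno' g hg (fun w hw => (hR'sub _ (hgR w hw)).1) ?_
      rw [← hl s0 (hR'sub s0 hs0).1]
      exact Finset.sum_congr rfl fun w hw => hc2 w hw _ (hgR w hw) _ hs0
    · push Not at hc2
      obtain ⟨w2, hw2, s, hs, s', hs', hne2⟩ := hc2
      have hss : s ≠ s' := fun h => hne2 (by rw [h])
      have hsd : l w2 s + l w2 s' = d := by
        rcases claim' w2 hw2 s hs s' hs' with h | h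
        · exact absurd (K_eq _ _ h) hne2
        · exact h
      obtain ⟨S, hS⟩ : ∃ S : Finset β, S = (R'.erase s).erase s' := ⟨_, rfl⟩
      have hs'e : s' ∈ R'.erase s := Finset.mem_erase.2 ⟨hss.symm, hs'⟩
      have hSc : S.card = R'.card - 2 := by
        rw [hS, Finset.card_erase_of_mem hs'e, Finset.card_erase_of_mem hs]
        omega
      have hSR : ∀ x ∈ S, x ∈ R' ∧ x ≠ s ∧ x ≠ s' := by
        intro x hx
        rw [hS, Finset.mem_erase, Finset.mem_erase] at hx
        exact ⟨hx.2.2, hx.2.1, hx.1⟩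
      have hWc : (W.erase w2).card ≤ S.card := by
        rw [Finset.card_erase_of_mem hw2, hSc, hR'c]
        omega
      obtain ⟨g, hg, hgS⟩ := inj_exists (W.erase w2) S hWc
      have hW2 : insert w2 (W.erase w2) = W := Finset.insert_erase hw2
      have two : ∀ x ∈ R', (x = s ∨ x = s') →
          l w2 x + ∑ v ∈ W.erase w2, l v (g v) ≠ 0 ∧
          (l w2 x + ∑ v ∈ W.erase w2, l v (g v) = 0 ∨
            l w2 x + ∑ v ∈ W.erase w2, l v (g v) = d) := by
        intro x hx hxs
        have hxS : x ∉ S := by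
          intro h
          have := hSR x h
          rcases hxs with h' | h'
          · exact this.2.1 h'
          · exact this.2.2 h'
        obtain ⟨a1, a2, a3⟩ := inj_extend l _ S g hg hgS w2 (by simp) x hxS
        rw [hW2] at a1 a2 a3
        have hmem : ∀ w ∈ W, Function.update g w2 x w ∈ R' := by
          intro w hw
          have := a2 w hw
          rw [Finset.mem_insert] at this
          rcases this with h | h
          · rw [h]; exact hx
          · exact (hSR _ h).1
        rw [← a3]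
        exact ⟨hno' _ a1 (fun w hw => (hR'sub _ (hmem w hw)).1), hall _ hmem⟩
      have f1 := two s hs (Or.inl rfl)
      have f2 := two s' hs' (Or.inr rfl)
      have g1 := f1.2.resolve_left f1.1
      have g2 := f2.2.resolve_left f2.1
      have : l w2 s + l w2 s' = 0 := by
        obtain ⟨S0, hS0⟩ : ∃ S0, S0 = ∑ v ∈ W.erase w2, l v (g v) := ⟨_, rfl⟩
        rw [← hS0] at g1 g2
        have e : (l w2 s + S0) + (l w2 s' + S0) = d + d := by rw [g1, g2]
        have e' : l w2 s + S0 + (l w2 s' + S0) = (S0 + S0) + (l w2 s + l w2 s') := by abel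
        rwa [e', K_add_self, K_add_self, zero_add] at e
      exact hd0 (hsd.symm.trans this)

/-! ### Placing twin classes -/

section
variable {n N : ℕ} (G : SimpleGraph (Fin n)) [DecidableRel G.Adj]

/-- colours pulled back to the edges of `G`. -/
def cG (c : Fin N → Fin N → K) (f : Fin n → Fin N) (u v : Fin n) : K :=
  if G.Adj u v then c (f u) (f v) else 0

theorem cG_symm (c : Fin N → Fin N → K) (hc : ∀ i j, c i j = c j i) (f : Fin n → Fin N)
    (u v : Fin n) : cG G c f u v = cG G c f v u := by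
  unfold cG
  by_cases h : G.Adj u v
  · rw [if_pos h, if_pos h.symm, hc]
  · rw [if_neg h, if_neg (fun h' => h h'.symm)]

/-- every colouring of `K_N` has a zero-sum copy of the subgraph induced on `B`. -/
def GA (B : Finset (Fin n)) (N : ℕ) : Prop :=
  ∀ c : Fin N → Fin N → K, (∀ i j, c i j = c j i) →
    ∃ f : Fin n → Fin N, Set.InjOn f (B : Set (Fin n)) ∧ E (cG G c f) B = 0

theorem glue' (c : Fin N → Fin N → K) (hc : ∀ i j, c i j = c j i) (B W : Finset (Fin n))
    (hd : Disjoint B W) (f : Fin n → Fin N) (hf : Set.InjOn f (B : Set (Fin n)))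
    (w0 : Fin n) (hw : ∀ w ∈ W, ∀ b ∈ B, (G.Adj w b ↔ G.Adj w0 b))
    (T : Finset (Fin N)) (hT : Disjoint (B.image f) T) (hcard : W.card = T.card) (κ : Bool)
    (hκ : ∀ w ∈ W, ∀ w' ∈ W, w ≠ w' → (G.Adj w w' ↔ κ = true)) :
    ∃ f' : Fin n → Fin N, Set.InjOn f' ((B ∪ W : Finset (Fin n)) : Set (Fin n)) ∧
      (∀ b ∈ B, f' b = f b) ∧ W.image f' = T ∧
      E (cG G c f') (B ∪ W) = E (cG G c f) B
        + (∑ t ∈ T, ∑ b ∈ B, (if G.Adj w0 b then c t (f b) else 0))
        + (if κ = true then E c T else 0) := by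
  classical
  let g := Finset.equivOfCardEq hcard
  let f' : Fin n → Fin N := fun x => if h : x ∈ W then (g ⟨x, h⟩ : Fin N) else f x
  have hW : ∀ w (h : w ∈ W), f' w = (g ⟨w, h⟩ : Fin N) := fun w h => dif_pos h
  have hB : ∀ b ∈ B, f' b = f b := fun b hb =>
    dif_neg (fun h => (Finset.disjoint_left.1 hd hb) h)
  have hWT : ∀ w ∈ W, f' w ∈ T := fun w h => by rw [hW w h]; exact (g ⟨w, h⟩).2
  have hWinj : Set.InjOn f' (W : Set (Fin n)) := by
    intro a ha b hb hab
    rw [hW a ha, hW b hb] at hab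
    have := g.injective (Subtype.ext hab)
    exact congrArg Subtype.val this
  have hcross : ∀ b ∈ B, ∀ w ∈ W, f' b ≠ f' w := by
    intro b hb w hw' h
    have h1 : f' b ∈ B.image f := by rw [hB b hb]; exact Finset.mem_image_of_mem f hb
    exact Finset.disjoint_left.1 hT h1 (h ▸ hWT w hw')
  have himg : W.image f' = T := by
    refine Finset.eq_of_subset_of_card_le ?_ ?_
    · intro x hx
      rw [Finset.mem_image] at hx
      obtain ⟨w, hw', rfl⟩ := hx
      exact hWT w hw'
    · rw [Finset.card_image_of_injOn hWinj, hcard]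
  refine ⟨f', ?_, hB, himg, ?_⟩
  · intro a ha b hb hab
    simp only [Finset.coe_union, Set.mem_union, Finset.mem_coe] at ha hb
    rcases ha with ha | ha <;> rcases hb with hb | hb
    · rw [hB a ha, hB b hb] at hab; exact hf ha hb hab
    · exact absurd hab (hcross a ha b hb)
    · exact absurd hab.symm (hcross b hb a ha)
    · exact hWinj ha hb hab
  · rw [E_union _ (cG_symm G c hc f') B W hd]
    have e1 : E (cG G c f') B = E (cG G c f) B := by
      refine Finset.sum_congr rfl fun i hi => Finset.sum_congr rfl fun j hj => ?_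
      rw [Finset.mem_filter] at hj
      unfold cG
      rw [hB i hi, hB j hj.1]
    have e2 : ∑ w ∈ W, ∑ b ∈ B, cG G c f' w b
        = ∑ t ∈ T, ∑ b ∈ B, (if G.Adj w0 b then c t (f b) else 0) := by
      rw [← himg, Finset.sum_image (fun a ha b hb hab => hWinj ha hb hab)]
      refine Finset.sum_congr rfl fun w hw' => Finset.sum_congr rfl fun b hb => ?_
      unfold cG
      rw [hB b hb]
      simp only [hw w hw' b hb]
    have e3 : E (cG G c f') W = if κ = true then E c T else 0 := by
      rw [← himg]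
      cases κ with
      | false =>
        rw [if_neg (by simp)]
        refine Finset.sum_eq_zero fun i hi => Finset.sum_eq_zero fun j hj => ?_
        rw [Finset.mem_filter] at hj
        unfold cG
        rw [if_neg]
        intro h
        exact absurd ((hκ i hi j hj.1 hj.2.ne).1 h) (by simp)
      | true =>
        rw [if_pos rfl, E_image c hc f' W hWinj]
        refine Finset.sum_congr rfl fun i hi => Finset.sum_congr rfl fun j hj => ?_
        rw [Finset.mem_filter] at hj
        unfold cG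
        rw [if_pos ((hκ i hi j hj.1 hj.2.ne).2 rfl)]
    rw [e1, e2, e3]

theorem glue (c : Fin N → Fin N → K) (hc : ∀ i j, c i j = c j i) (B W : Finset (Fin n))
    (hd : Disjoint B W) (f : Fin n → Fin N) (hf : Set.InjOn f (B : Set (Fin n)))
    (h0 : E (cG G c f) B = 0) (w0 : Fin n) (hw : ∀ w ∈ W, ∀ b ∈ B, (G.Adj w b ↔ G.Adj w0 b))
    (T : Finset (Fin N)) (hT : Disjoint (B.image f) T) (hcard : W.card = T.card) (κ : Bool)
    (hκ : ∀ w ∈ W, ∀ w' ∈ W, w ≠ w' → (G.Adj w w' ↔ κ = true))
    (hsum : ∑ t ∈ T, ∑ b ∈ B, (if G.Adj w0 b then c t (f b) else 0)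
      + (if κ = true then E c T else 0) = 0) :
    ∃ f' : Fin n → Fin N, Set.InjOn f' ((B ∪ W : Finset (Fin n)) : Set (Fin n)) ∧
      E (cG G c f') (B ∪ W) = 0 := by
  obtain ⟨f', h1, _, _, h4⟩ := glue' G c hc B W hd f hf w0 hw T hT hcard κ hκ
  exact ⟨f', h1, by rw [h4, h0, zero_add, hsum]⟩

theorem GA_indep {B W : Finset (Fin n)} (h : GA G B N) (hd : Disjoint B W)
    (hind : ∀ w ∈ W, ∀ w' ∈ W, ¬ G.Adj w w')
    (heven : ∀ b ∈ B, Even (W.filter (fun w => G.Adj w b)).card)
    (hN : B.card + W.card + 3 ≤ N) : GA G (B ∪ W) N := by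
  intro c hc
  obtain ⟨f, hf, h0⟩ := h c hc
  have hR : W.card + 3 ≤ (Finset.univ \ B.image f).card := by
    rw [Finset.card_sdiff_of_subset (Finset.subset_univ _), Finset.card_univ (α := Fin N),
      Fintype.card_fin, Finset.card_image_of_injOn hf]
    omega
  obtain ⟨τ, hτ, hτR, hsum⟩ := even_indep
    (fun (w : Fin n) (t : Fin N) => ∑ b ∈ B, (if G.Adj w b then c t (f b) else 0)) W
    (Finset.univ \ B.image f) (by
      intro t _
      rw [Finset.sum_comm]
      refine Finset.sum_eq_zero fun b hb => ?_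
      rw [← Finset.sum_filter, Finset.sum_const]
      obtain ⟨r, hr⟩ := heven b hb
      rw [hr, add_nsmul, K_add_self]) hR
  let f' : Fin n → Fin N := fun x => if x ∈ W then τ x else f x
  have hW : ∀ w ∈ W, f' w = τ w := fun w h => if_pos h
  have hB : ∀ b ∈ B, f' b = f b := fun b hb =>
    if_neg (fun h => (Finset.disjoint_left.1 hd hb) h)
  have hcross : ∀ b ∈ B, ∀ w ∈ W, f' b ≠ f' w := by
    intro b hb w hw' h
    have h1 := hτR w hw'
    rw [Finset.mem_sdiff] at h1
    apply h1.2
    rw [← hW w hw', ← h, hB b hb]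
    exact Finset.mem_image_of_mem f hb
  refine ⟨f', ?_, ?_⟩
  · intro a ha b hb hab
    simp only [Finset.coe_union, Set.mem_union, Finset.mem_coe] at ha hb
    rcases ha with ha | ha <;> rcases hb with hb | hb
    · rw [hB a ha, hB b hb] at hab; exact hf ha hb hab
    · exact absurd hab (hcross a ha b hb)
    · exact absurd hab.symm (hcross b hb a ha)
    · rw [hW a ha, hW b hb] at hab; exact hτ ha hb hab
  · rw [E_union _ (cG_symm G c hc f') B W hd]
    have e1 : E (cG G c f') B = 0 := by
      rw [← h0]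
      refine Finset.sum_congr rfl fun i hi => Finset.sum_congr rfl fun j hj => ?_
      rw [Finset.mem_filter] at hj
      unfold cG
      rw [hB i hi, hB j hj.1]
    have e2 : ∑ w ∈ W, ∑ b ∈ B, cG G c f' w b = 0 := by
      refine Eq.trans ?_ hsum
      refine Finset.sum_congr rfl fun w hw' => Finset.sum_congr rfl fun b hb => ?_
      unfold cG
      rw [hB b hb, hW w hw']
    have e3 : E (cG G c f') W = 0 := by
      refine Finset.sum_eq_zero fun i hi => Finset.sum_eq_zero fun j hj => ?_
      rw [Finset.mem_filter] at hj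
      unfold cG
      rw [if_neg (hind i hi j hj.1)]
    rw [e1, e2, e3, add_zero, add_zero]

theorem EvenBuilt.isolated {G : SimpleGraph (Fin n)} [DecidableRel G.Adj] (B : Finset (Fin n))
    (u : Fin n) (hB : EvenBuilt G B) (hu : u ∉ B) (hadj : ∀ b ∈ B, ¬ G.Adj u b) :
    EvenBuilt G (B ∪ {u}) := by
  refine EvenBuilt.indep B {u} hB (by simpa using hu) ?_ ?_
  · intro w hw w' hw'
    rw [Finset.mem_singleton] at hw hw'
    rw [hw, hw']
    exact G.irrefl
  · intro b hb
    rw [Finset.filter_singleton, if_neg (hadj b hb)]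
    simp

theorem EvenBuilt.pair {G : SimpleGraph (Fin n)} [DecidableRel G.Adj] (B : Finset (Fin n))
    (u v : Fin n) (hB : EvenBuilt G B) (hu : u ∉ B) (hv : v ∉ B) (huv : u ≠ v)
    (hadj : ¬ G.Adj u v) (htwin : ∀ b ∈ B, (G.Adj v b ↔ G.Adj u b)) :
    EvenBuilt G (B ∪ {u, v}) := by
  refine EvenBuilt.indep B {u, v} hB ?_ ?_ ?_
  · rw [Finset.disjoint_insert_right, Finset.disjoint_singleton_right]
    exact ⟨hu, hv⟩
  · intro w hw w' hw'
    simp only [Finset.mem_insert, Finset.mem_singleton] at hw hw'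
    rcases hw with rfl | rfl <;> rcases hw' with rfl | rfl
    · exact G.irrefl
    · exact hadj
    · exact fun h => hadj h.symm
    · exact G.irrefl
  · intro b hb
    by_cases h : G.Adj u b
    · have : ({u, v} : Finset (Fin n)).filter (fun w => G.Adj w b) = {u, v} := by
        rw [Finset.filter_eq_self]
        intro w hw
        simp only [Finset.mem_insert, Finset.mem_singleton] at hw
        rcases hw with rfl | rfl
        · exact h
        · exact (htwin b hb).2 h
      rw [this, Finset.card_pair huv]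
      exact even_two
    · have : ({u, v} : Finset (Fin n)).filter (fun w => G.Adj w b) = ∅ := by
        rw [Finset.filter_eq_empty_iff]
        intro w hw
        simp only [Finset.mem_insert, Finset.mem_singleton] at hw
        rcases hw with rfl | rfl
        · exact h
        · exact fun h' => h ((htwin b hb).1 h')
      rw [this]
      simp

theorem GA_quad {B W : Finset (Fin n)} (h : GA G B N) (hd : Disjoint B W) (hW : W.card = 4)
    (hadj : ∀ w ∈ W, ∀ w' ∈ W, w ≠ w' → G.Adj w w')
    (htw : ∀ w ∈ W, ∀ w' ∈ W, ∀ b ∈ B, (G.Adj w b ↔ G.Adj w' b))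
    (hN : B.card + 10 ≤ N) : GA G (B ∪ W) N := by
  intro c hc
  obtain ⟨f, hf, h0⟩ := h c hc
  have hR : 10 ≤ (Finset.univ \ B.image f).card := by
    rw [Finset.card_sdiff_of_subset (Finset.subset_univ _), Finset.card_univ (α := Fin N),
      Fintype.card_fin, Finset.card_image_of_injOn hf]
    omega
  obtain ⟨R, hRs, hRc⟩ := Finset.exists_subset_card_eq hR
  obtain ⟨w0, hw0⟩ : W.Nonempty := by rw [← Finset.card_pos]; omega
  obtain ⟨T, hT, t1, t2⟩ := ten c hc
    (fun t => ∑ b ∈ B, (if G.Adj w0 b then c t (f b) else 0)) R hRc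
  refine glue G c hc B W hd f hf h0 w0 (fun w hw b hb => htw w hw w0 hw0 b hb) T ?_
    (by rw [hW, t1]) true (fun w hw w' hw' hne => by simp [hadj w hw w' hw' hne]) (by simpa using t2)
  exact Finset.disjoint_of_subset_right (hT.trans hRs) Finset.disjoint_sdiff

end

section
variable {n N : ℕ} (G : SimpleGraph (Fin n)) [DecidableRel G.Adj]

theorem two_cliques (c : Fin N → Fin N → K) (hc : ∀ i j, c i j = c j i)
    (S : Finset (Fin N)) (i j : ℕ) (hi : i = 2 ∨ i = 3) (hj : j = 2 ∨ j = 3)
    (hS : i + j + 6 ≤ S.card) :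
    ∃ T1 ⊆ S, ∃ T2 ⊆ S, Disjoint T1 T2 ∧ T1.card = i ∧ T2.card = j ∧ E c T1 + E c T2 = 0 := by
  obtain ⟨R, hRS, hR⟩ := exists_sub S (i + j + 6) hS
  rcases hi with rfl | rfl <;> rcases hj with rfl | rfl
  · obtain ⟨T1, h1, T2, h2, h3, h4, h5, h6⟩ := two_two c hc R hR
    exact ⟨T1, h1.trans hRS, T2, h2.trans hRS, h3, h4, h5, h6⟩
  · obtain ⟨T1, h1, T2, h2, h3, h4, h5, h6⟩ := two_three c hc R hR
    exact ⟨T1, h1.trans hRS, T2, h2.trans hRS, h3, h4, h5, h6⟩
  · obtain ⟨T1, h1, T2, h2, h3, h4, h5, h6⟩ := two_three c hc R hR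
    exact ⟨T2, h2.trans hRS, T1, h1.trans hRS, h3.symm, h5, h4, by rw [add_comm]; exact h6⟩
  · obtain ⟨T1, h1, T2, h2, h3, h4, h5, h6⟩ := three_three c hc R hR
    exact ⟨T1, h1.trans hRS, T2, h2.trans hRS, h3, h4, h5, h6⟩

theorem GA_cliques {B W1 W2 : Finset (Fin n)} (h : GA G B N) (hd1 : Disjoint B W1)
    (hd2 : Disjoint (B ∪ W1) W2) (h1 : W1.card = 2 ∨ W1.card = 3)
    (h2 : W2.card = 2 ∨ W2.card = 3)
    (hadj1 : ∀ w ∈ W1, ∀ w' ∈ W1, w ≠ w' → G.Adj w w')
    (hadj2 : ∀ w ∈ W2, ∀ w' ∈ W2, w ≠ w' → G.Adj w w')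
    (hno1 : ∀ w ∈ W1, ∀ b ∈ B, ¬ G.Adj w b) (hno2 : ∀ w ∈ W2, ∀ b ∈ B ∪ W1, ¬ G.Adj w b)
    (hN : B.card + W1.card + W2.card + 6 ≤ N) : GA G (B ∪ W1 ∪ W2) N := by
  intro c hc
  obtain ⟨f, hf, h0⟩ := h c hc
  have hR : W1.card + W2.card + 6 ≤ (Finset.univ \ B.image f).card := by
    rw [Finset.card_sdiff_of_subset (Finset.subset_univ _), Finset.card_univ (α := Fin N),
      Fintype.card_fin, Finset.card_image_of_injOn hf]
    omega
  obtain ⟨T1, s1, T2, s2, hT12, c1, c2, hsum⟩ := two_cliques c hc _ _ _ h1 h2 hR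
  obtain ⟨w1, hw1⟩ : W1.Nonempty := by rw [← Finset.card_pos]; omega
  obtain ⟨w2, hw2⟩ : W2.Nonempty := by rw [← Finset.card_pos]; omega
  obtain ⟨f1, i1, b1, m1, e1⟩ := glue' G c hc B W1 hd1 f hf w1
    (fun w hw b hb => iff_of_false (hno1 w hw b hb) (hno1 w1 hw1 b hb)) T1
    (Finset.disjoint_of_subset_right s1 Finset.disjoint_sdiff) c1.symm true
    (fun w hw w' hw' hne => by simp [hadj1 w hw w' hw' hne])
  have z1 : ∑ t ∈ T1, ∑ b ∈ B, (if G.Adj w1 b then c t (f b) else 0) = 0 :=
    Finset.sum_eq_zero fun t _ => Finset.sum_eq_zero fun b hb => if_neg (hno1 w1 hw1 b hb)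
  rw [h0, z1, if_pos rfl, add_zero, zero_add] at e1
  have hd3 : Disjoint ((B ∪ W1).image f1) T2 := by
    rw [Finset.image_union, m1, Finset.disjoint_union_left]
    refine ⟨?_, hT12⟩
    have : B.image f1 = B.image f := Finset.image_congr (fun b hb => b1 b hb)
    rw [this]
    exact Finset.disjoint_of_subset_right s2 Finset.disjoint_sdiff
  obtain ⟨f2, i2, _, _, e2⟩ := glue' G c hc (B ∪ W1) W2 hd2 f1 i1 w2
    (fun w hw b hb => iff_of_false (hno2 w hw b hb) (hno2 w2 hw2 b hb)) T2 hd3 c2.symm true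
    (fun w hw w' hw' hne => by simp [hadj2 w hw w' hw' hne])
  have z2 : ∑ t ∈ T2, ∑ b ∈ B ∪ W1, (if G.Adj w2 b then c t (f1 b) else 0) = 0 :=
    Finset.sum_eq_zero fun t _ => Finset.sum_eq_zero fun b hb => if_neg (hno2 w2 hw2 b hb)
  rw [e1, z2, if_pos rfl, add_zero, hsum] at e2
  exact ⟨f2, i2, e2⟩

theorem GA_built (hN : n + 6 ≤ N) (B : Finset (Fin n)) (h : EvenBuilt G B) : GA G B N := by
  induction h with
  | empty =>
    intro c hc
    exact ⟨fun _ => ⟨0, by omega⟩, by simp, by simp [E]⟩
  | indep B W hB hd hind heven ih =>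
    refine GA_indep G ih hd hind heven ?_
    have := Finset.card_le_univ (B ∪ W)
    rw [Fintype.card_fin, Finset.card_union_of_disjoint hd] at this
    omega
  | quad B W hB hd hW hadj htwin ih =>
    refine GA_quad G ih hd hW hadj htwin ?_
    have := Finset.card_le_univ (B ∪ W)
    rw [Fintype.card_fin, Finset.card_union_of_disjoint hd] at this
    omega
  | cliques B W1 W2 hB hd1 hd2 h1 h2 hadj1 hadj2 hno1 hno2 ih =>
    refine GA_cliques G ih hd1 hd2 h1 h2 hadj1 hadj2 hno1 hno2 ?_
    have := Finset.card_le_univ (B ∪ W1 ∪ W2)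
    rw [Fintype.card_fin, Finset.card_union_of_disjoint hd2,
      Finset.card_union_of_disjoint hd1] at this
    omega

/-- parity of the number of edges inside `B`. -/
def par (B : Finset (Fin n)) : K := E (fun u v => if G.Adj u v then ((1, 0) : K) else 0) B

theorem par_symm (u v : Fin n) :
    (if G.Adj u v then ((1, 0) : K) else 0) = if G.Adj v u then ((1, 0) : K) else 0 := by
  by_cases h : G.Adj u v
  · rw [if_pos h, if_pos h.symm]
  · rw [if_neg h, if_neg (fun h' => h h'.symm)]

theorem par_pair {B : Finset (Fin n)} {u v : Fin n} (huv : u ≠ v) (hu : u ∉ B)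
    (hv : v ∉ B) (hadj : ¬ G.Adj u v) (htw : ∀ b ∈ B, (G.Adj v b ↔ G.Adj u b)) :
    par G (B ∪ {u, v}) = par G B := by
  have hd : Disjoint B {u, v} := by
    rw [Finset.disjoint_insert_right, Finset.disjoint_singleton_right]
    exact ⟨hu, hv⟩
  unfold par
  rw [E_union _ (par_symm G) B {u, v} hd, Finset.sum_pair huv]
  have e1 : ∑ b ∈ B, (if G.Adj v b then ((1, 0) : K) else 0)
      = ∑ b ∈ B, (if G.Adj u b then ((1, 0) : K) else 0) :=
    Finset.sum_congr rfl fun b hb => by simp only [htw b hb]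
  have e2 : E (fun u v => if G.Adj u v then ((1, 0) : K) else 0) {u, v} = 0 := by
    rw [E_insert _ (par_symm G) _ _ (by simpa using huv), E_single, Finset.sum_singleton,
      if_neg hadj, add_zero]
  rw [e1, e2, K_add_self, add_zero, add_zero]

theorem par_clique_pair {u v : Fin n} (huv : u ≠ v) (hadj : G.Adj u v) :
    par G {u, v} = (1, 0) := by
  unfold par
  rw [E_insert _ (par_symm G) _ _ (by simpa using huv), E_single, Finset.sum_singleton,
    if_pos hadj, zero_add]

theorem par_clique_triple {u v w : Fin n} (huv : u ≠ v) (huw : u ≠ w) (hvw : v ≠ w)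
    (h1 : G.Adj u v) (h2 : G.Adj u w) (h3 : G.Adj v w) :
    par G {u, v, w} = (1, 0) := by
  unfold par
  rw [E_insert _ (par_symm G) _ _ (by simp [huv, huw]),
    E_insert _ (par_symm G) _ _ (by simpa using hvw), E_single, Finset.sum_singleton,
    Finset.sum_pair hvw, if_pos h1, if_pos h2, if_pos h3]
  decide

theorem par_quad {B W : Finset (Fin n)} (hd : Disjoint B W) (hW : W.card = 4)
    (hadj : ∀ w ∈ W, ∀ w' ∈ W, w ≠ w' → G.Adj w w')
    (htw : ∀ w ∈ W, ∀ w' ∈ W, ∀ b ∈ B, (G.Adj w b ↔ G.Adj w' b)) :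
    par G (B ∪ W) = par G B := by
  unfold par
  rw [E_union _ (par_symm G) B W hd]
  obtain ⟨w0, hw0⟩ : W.Nonempty := by rw [← Finset.card_pos]; omega
  have e1 : ∑ w ∈ W, ∑ b ∈ B, (if G.Adj w b then ((1, 0) : K) else 0) = 0 := by
    have : ∀ w ∈ W, ∑ b ∈ B, (if G.Adj w b then ((1, 0) : K) else 0)
        = ∑ b ∈ B, (if G.Adj w0 b then ((1, 0) : K) else 0) := fun w hw =>
      Finset.sum_congr rfl fun b hb => by simp only [htw w hw w0 hw0 b hb]
    rw [Finset.sum_congr rfl this, Finset.sum_const, hW]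
    generalize ∑ b ∈ B, (if G.Adj w0 b then ((1, 0) : K) else 0) = x
    revert x; decide
  have e2 : E (fun u v => if G.Adj u v then ((1, 0) : K) else 0) W = 0 := by
    obtain ⟨p, W3, hp, rfl, hW3⟩ := Finset.card_eq_succ.1 hW
    obtain ⟨q, r, s, hqr, hqs, hrs, rfl⟩ := Finset.card_eq_three.1 hW3
    simp only [Finset.mem_insert, Finset.mem_singleton, not_or] at hp
    rw [E_four _ (par_symm G) p q r s hp.1 hp.2.1 hp.2.2 hqr hqs hrs,
      if_pos (hadj p (by simp) q (by simp) hp.1), if_pos (hadj p (by simp) r (by simp) hp.2.1),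
      if_pos (hadj p (by simp) s (by simp) hp.2.2), if_pos (hadj q (by simp) r (by simp) hqr),
      if_pos (hadj q (by simp) s (by simp) hqs), if_pos (hadj r (by simp) s (by simp) hrs)]
    decide
  rw [e1, e2, add_zero, add_zero]

theorem built_of_multipartite (hG : G.IsCompleteMultipartite) (m : ℕ) :
    ∀ B : Finset (Fin n), B.card = m → par G B = 0 → EvenBuilt G B := by
  induction m using Nat.strong_induction_on with
  | _ m ih =>
    intro B hB hp
    have hne : ((1, 0) : K) ≠ 0 := by decide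
    by_cases hcl : ∃ u ∈ B, ∃ v ∈ B, u ≠ v ∧ ¬ G.Adj u v
    · obtain ⟨u, hu, v, hv, huv, hadj⟩ := hcl
      have hvu : v ∈ B.erase u := Finset.mem_erase.2 ⟨huv.symm, hv⟩
      have hBe : B = (B.erase u).erase v ∪ {u, v} := by
        ext x
        simp only [Finset.mem_union, Finset.mem_erase, Finset.mem_insert, Finset.mem_singleton]
        constructor
        · intro hx
          by_cases h1 : x = u
          · exact Or.inr (Or.inl h1)
          · by_cases h2 : x = v
            · exact Or.inr (Or.inr h2)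
            · exact Or.inl ⟨h2, h1, hx⟩
        · rintro (h | h | h)
          · exact h.2.2
          · exact h ▸ hu
          · exact h ▸ hv
      have hu' : u ∉ (B.erase u).erase v := by simp
      have hv' : v ∉ (B.erase u).erase v := by simp
      have htw : ∀ b, (G.Adj v b ↔ G.Adj u b) := by
        intro b
        constructor
        · intro h
          by_contra h'
          exact hG.trans v u b (fun h => hadj h.symm) h' h
        · intro h
          by_contra h'
          exact hG.trans u v b hadj h' h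
      have hcard : ((B.erase u).erase v).card < m := by
        rw [Finset.card_erase_of_mem hvu, Finset.card_erase_of_mem hu, hB]
        have : 0 < B.card := Finset.card_pos.2 ⟨u, hu⟩
        omega
      have hpar : par G ((B.erase u).erase v) = 0 := by
        rw [← hp]
        conv_rhs => rw [hBe]
        exact (par_pair G huv hu' hv' hadj (fun b _ => htw b)).symm
      rw [hBe]
      exact EvenBuilt.pair _ u v (ih _ hcard _ rfl hpar) hu' hv' huv hadj (fun b _ => htw b)
    · push Not at hcl
      rcases Nat.lt_or_ge m 4 with hm | hm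
      · have hm' : m = 0 ∨ m = 1 ∨ m = 2 ∨ m = 3 := by omega
        rcases hm' with rfl | rfl | rfl | rfl
        · rw [Finset.card_eq_zero] at hB
          rw [hB]
          exact EvenBuilt.empty
        · obtain ⟨u, rfl⟩ := Finset.card_eq_one.1 hB
          have := EvenBuilt.isolated (G := G) ∅ u EvenBuilt.empty (by simp) (by simp)
          simpa using this
        · obtain ⟨u, v, huv, rfl⟩ := Finset.card_eq_two.1 hB
          exfalso
          rw [par_clique_pair G huv (hcl u (by simp) v (by simp) huv)] at hp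
          exact hne hp
        · obtain ⟨u, v, w, huv, huw, hvw, rfl⟩ := Finset.card_eq_three.1 hB
          exfalso
          rw [par_clique_triple G huv huw hvw (hcl u (by simp) v (by simp) huv)
            (hcl u (by simp) w (by simp) huw) (hcl v (by simp) w (by simp) hvw)] at hp
          exact hne hp
      · obtain ⟨W, hWB, hW⟩ := Finset.exists_subset_card_eq (hB ▸ hm : 4 ≤ B.card)
        have hd : Disjoint (B \ W) W := Finset.sdiff_disjoint
        have hBe : B = (B \ W) ∪ W := (Finset.sdiff_union_of_subset hWB).symm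
        have hadj : ∀ w ∈ W, ∀ w' ∈ W, w ≠ w' → G.Adj w w' := fun w hw w' hw' hne =>
          hcl w (hWB hw) w' (hWB hw') hne
        have htw : ∀ w ∈ W, ∀ w' ∈ W, ∀ b ∈ B \ W, (G.Adj w b ↔ G.Adj w' b) := by
          intro w hw w' hw' b hb
          rw [Finset.mem_sdiff] at hb
          have h1 : G.Adj w b := hcl w (hWB hw) b hb.1 (fun h => hb.2 (h ▸ hw))
          have h2 : G.Adj w' b := hcl w' (hWB hw') b hb.1 (fun h => hb.2 (h ▸ hw'))
          exact ⟨fun _ => h2, fun _ => h1⟩
        have hcard : (B \ W).card < m := by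
          rw [Finset.card_sdiff_of_subset hWB, hB, hW]
          omega
        have hpar : par G (B \ W) = 0 := by
          rw [← hp]
          conv_rhs => rw [hBe]
          exact (par_quad G hd hW hadj htw).symm
        rw [hBe]
        exact EvenBuilt.quad _ W (ih _ hcard _ rfl hpar) hd hW hadj htw

theorem par_clique {W : Finset (Fin n)} (hW : W.card = 2 ∨ W.card = 3)
    (hadj : ∀ w ∈ W, ∀ w' ∈ W, w ≠ w' → G.Adj w w') : par G W = (1, 0) := by
  rcases hW with hW | hW
  · obtain ⟨u, v, huv, rfl⟩ := Finset.card_eq_two.1 hW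
    exact par_clique_pair G huv (hadj u (by simp) v (by simp) huv)
  · obtain ⟨u, v, w, huv, huw, hvw, rfl⟩ := Finset.card_eq_three.1 hW
    exact par_clique_triple G huv huw hvw (hadj u (by simp) v (by simp) huv)
      (hadj u (by simp) w (by simp) huw) (hadj v (by simp) w (by simp) hvw)

theorem par_comp {B W : Finset (Fin n)} (hd : Disjoint B W)
    (hno : ∀ w ∈ W, ∀ b ∈ B, ¬ G.Adj w b) : par G (B ∪ W) = par G B + par G W := by
  unfold par
  rw [E_union _ (par_symm G) B W hd]
  have e1 : ∑ w ∈ W, ∑ b ∈ B, (if G.Adj w b then ((1, 0) : K) else 0) = 0 :=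
    Finset.sum_eq_zero fun w hw => Finset.sum_eq_zero fun b hb => if_neg (hno w hw b hb)
  rw [e1, add_zero]

/-- one step for graphs in which adjacency is transitive: the class of `v`. -/
theorem comp_step (htr : ∀ u v w, G.Adj u v → G.Adj v w → u ≠ w → G.Adj u w)
    (m : ℕ) (ih : ∀ k, k < m → ∀ B : Finset (Fin n), B.card = k → par G B = 0 → EvenBuilt G B)
    (B : Finset (Fin n)) (hB : B.card = m) (hp : par G B = 0) (v : Fin n) (hv : v ∈ B) :
    EvenBuilt G B ∨ ∃ C ⊆ B, v ∈ C ∧ (C.card = 2 ∨ C.card = 3) ∧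
      (∀ w ∈ C, ∀ w' ∈ C, w ≠ w' → G.Adj w w') ∧ (∀ w ∈ C, ∀ b ∈ B \ C, ¬ G.Adj w b) := by
  obtain ⟨C, hC⟩ : ∃ C : Finset (Fin n), C = B.filter (fun u => u = v ∨ G.Adj v u) := ⟨_, rfl⟩
  have hCB : C ⊆ B := by rw [hC]; exact Finset.filter_subset _ _
  have hmem : ∀ u, u ∈ C ↔ u ∈ B ∧ (u = v ∨ G.Adj v u) := by
    intro u; rw [hC, Finset.mem_filter]
  have hvC : v ∈ C := (hmem v).2 ⟨hv, Or.inl rfl⟩
  have hadj : ∀ w ∈ C, ∀ w' ∈ C, w ≠ w' → G.Adj w w' := by
    intro w hw w' hw' hne
    rcases ((hmem w).1 hw).2 with h | h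
    · rcases ((hmem w').1 hw').2 with h' | h'
      · exact absurd (h.trans h'.symm) hne
      · rw [h]; exact h'
    · rcases ((hmem w').1 hw').2 with h' | h'
      · rw [h']; exact h.symm
      · exact htr w v w' h.symm h' hne
  have hno : ∀ w ∈ C, ∀ b ∈ B \ C, ¬ G.Adj w b := by
    intro w hw b hb hwb
    rw [Finset.mem_sdiff] at hb
    apply hb.2
    rw [hmem]
    refine ⟨hb.1, ?_⟩
    rcases ((hmem w).1 hw).2 with h | h
    · right; rw [← h]; exact hwb
    · by_cases hbv : b = v
      · exact Or.inl hbv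
      · exact Or.inr (htr v w b h hwb (fun h' => hbv h'.symm))
  have hpos : 0 < C.card := Finset.card_pos.2 ⟨v, hvC⟩
  rcases Nat.lt_or_ge C.card 4 with hlt | hge
  · have : C.card = 1 ∨ (C.card = 2 ∨ C.card = 3) := by omega
    rcases this with h1 | h23
    · left
      have hCv : C = {v} := by
        obtain ⟨x, hx⟩ := Finset.card_eq_one.1 h1
        rw [hx, Finset.mem_singleton] at hvC
        rw [hx, hvC]
      have hBe : B = (B \ C) ∪ {v} := by rw [← hCv, Finset.sdiff_union_of_subset hCB]
      have hd : Disjoint (B \ C) {v} := by rw [← hCv]; exact Finset.sdiff_disjoint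
      have hpar : par G (B \ C) = 0 := by
        have h := par_comp G (B := B \ C) (W := {v}) hd (fun w hw b hb => by
          rw [← hCv] at hw; exact hno w hw b hb)
        rw [← hBe, hp] at h
        have h' : par G {v} = 0 := by unfold par; rw [E_single]
        rw [h', add_zero] at h
        exact h.symm
      have hcard : (B \ C).card < m := by
        rw [Finset.card_sdiff_of_subset hCB, hB, h1]
        have := Finset.card_le_card hCB
        omega
      have := EvenBuilt.isolated (G := G) (B \ C) v (ih _ hcard _ rfl hpar)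
        (by simp [hvC]) (hno v hvC)
      rwa [← hBe] at this
    · exact Or.inr ⟨C, hCB, hvC, h23, hadj, hno⟩
  · left
    obtain ⟨W, hWC, hW⟩ := Finset.exists_subset_card_eq hge
    have hWB : W ⊆ B := hWC.trans hCB
    have hd : Disjoint (B \ W) W := Finset.sdiff_disjoint
    have hBe : B = (B \ W) ∪ W := (Finset.sdiff_union_of_subset hWB).symm
    have hadjW : ∀ w ∈ W, ∀ w' ∈ W, w ≠ w' → G.Adj w w' := fun w hw w' hw' hne =>
      hadj w (hWC hw) w' (hWC hw') hne
    have htw : ∀ w ∈ W, ∀ w' ∈ W, ∀ b ∈ B \ W, (G.Adj w b ↔ G.Adj w' b) := by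
      intro w hw w' hw' b hb
      rw [Finset.mem_sdiff] at hb
      by_cases hbC : b ∈ C
      · exact iff_of_true (hadj w (hWC hw) b hbC (fun h => hb.2 (h ▸ hw)))
          (hadj w' (hWC hw') b hbC (fun h => hb.2 (h ▸ hw')))
      · exact iff_of_false (hno w (hWC hw) b (Finset.mem_sdiff.2 ⟨hb.1, hbC⟩))
          (hno w' (hWC hw') b (Finset.mem_sdiff.2 ⟨hb.1, hbC⟩))
    have hcard : (B \ W).card < m := by
      rw [Finset.card_sdiff_of_subset hWB, hB, hW]
      have := Finset.card_le_card hWB
      omega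
    have hpar : par G (B \ W) = 0 := by
      rw [← hp]
      conv_rhs => rw [hBe]
      exact (par_quad G hd hW hadjW htw).symm
    rw [hBe]
    exact EvenBuilt.quad _ W (ih _ hcard _ rfl hpar) hd hW hadjW htw

theorem built_of_cliques (htr : ∀ u v w, G.Adj u v → G.Adj v w → u ≠ w → G.Adj u w) (m : ℕ) :
    ∀ B : Finset (Fin n), B.card = m → par G B = 0 → EvenBuilt G B := by
  induction m using Nat.strong_induction_on with
  | _ m ih =>
    intro B hB hp
    have hne : ((1, 0) : K) ≠ 0 := by decide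
    rcases B.eq_empty_or_nonempty with rfl | ⟨v, hv⟩
    · exact EvenBuilt.empty
    · rcases comp_step G htr m ih B hB hp v hv with h | ⟨C, hCB, hvC, hC, hadj, hno⟩
      · exact h
      · rcases (B \ C).eq_empty_or_nonempty with hemp | ⟨v', hv'⟩
        · exfalso
          have hBC : B = C := Finset.Subset.antisymm (Finset.sdiff_eq_empty_iff_subset.1 hemp) hCB
          rw [hBC, par_clique G hC hadj] at hp
          exact hne hp
        · rw [Finset.mem_sdiff] at hv'
          rcases comp_step G htr m ih B hB hp v' hv'.1 with h | ⟨C', hCB', hvC', hC', hadj', hno'⟩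
          · exact h
          · have hCC : Disjoint C C' := by
              rw [Finset.disjoint_left]
              intro x hx hx'
              have hxv : x ≠ v' := fun h => hv'.2 (h ▸ hx)
              exact hno x hx v' (Finset.mem_sdiff.2 hv') (hadj' x hx' v' hvC' hxv)
            have hd1 : Disjoint ((B \ C) \ C') C :=
              Finset.disjoint_of_subset_left Finset.sdiff_subset Finset.sdiff_disjoint
            have hC'B : C' ⊆ B \ C := fun x hx =>
              Finset.mem_sdiff.2 ⟨hCB' hx, fun h => Finset.disjoint_left.1 hCC h hx⟩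
            have hd2 : Disjoint (((B \ C) \ C') ∪ C) C' := by
              rw [Finset.disjoint_union_left]
              exact ⟨Finset.sdiff_disjoint, hCC⟩
            have hBe : B = ((B \ C) \ C') ∪ C ∪ C' := by
              rw [Finset.union_right_comm, Finset.sdiff_union_of_subset hC'B,
                Finset.sdiff_union_of_subset hCB]
            have hno1 : ∀ w ∈ C, ∀ b ∈ (B \ C) \ C', ¬ G.Adj w b := fun w hw b hb =>
              hno w hw b (Finset.mem_sdiff.1 hb).1
            have hno2 : ∀ w ∈ C', ∀ b ∈ ((B \ C) \ C') ∪ C, ¬ G.Adj w b := by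
              intro w hw b hb
              rw [Finset.mem_union] at hb
              refine hno' w hw b (Finset.mem_sdiff.2 ?_)
              rcases hb with hb | hb
              · rw [Finset.mem_sdiff, Finset.mem_sdiff] at hb
                exact ⟨hb.1.1, hb.2⟩
              · exact ⟨hCB hb, fun h => Finset.disjoint_left.1 hCC hb h⟩
            have hpar : par G ((B \ C) \ C') = 0 := by
              have h1 := par_comp G hd1 hno1
              have h2 := par_comp G hd2 hno2
              rw [← hBe, hp, h1, par_clique G hC hadj, par_clique G hC' hadj', add_assoc,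
                K_add_self, add_zero] at h2
              exact h2.symm
            have hcard : ((B \ C) \ C').card < m := by
              have a1 : ((B \ C) \ C').card ≤ (B \ C).card :=
                Finset.card_le_card Finset.sdiff_subset
              have a2 : (B \ C).card = B.card - C.card := Finset.card_sdiff_of_subset hCB
              have a3 := Finset.card_le_card hCB
              omega
            rw [hBe]
            exact EvenBuilt.cliques _ C C' (ih _ hcard _ rfl hpar) hd1 hd2 hC hC' hadj hadj'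
              hno1 hno2

theorem par_even (h : Even G.edgeFinset.card) : par G Finset.univ = 0 := by
  have h1 := sum_edges G (fun _ => ((1, 0) : K))
  rw [Finset.sum_const] at h1
  obtain ⟨r, hr⟩ := h
  rw [hr, add_nsmul, K_add_self] at h1
  rw [← h1]
  unfold par E
  refine Finset.sum_congr rfl fun i _ => ?_
  rw [Finset.sum_filter]
  refine Finset.sum_congr rfl fun j _ => ?_
  by_cases h2 : i < j <;> by_cases h3 : G.Adj i j <;> simp [h2, h3]

theorem arrows_of_GA (h : GA G Finset.univ N) : ZeroSumArrows G N := by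
  intro c
  obtain ⟨f, hf, h0⟩ := h (fun i j => c s(i, j)) (fun i j => by rw [Sym2.eq_swap])
  have hinj : Function.Injective f := by
    intro a b hab
    exact hf (by simp) (by simp) hab
  refine ⟨⟨f, hinj⟩, ?_⟩
  rw [← sum_edges]
  refine Eq.trans ?_ h0
  unfold E cG
  refine Finset.sum_congr rfl fun i _ => ?_
  rw [Finset.sum_filter]
  refine Finset.sum_congr rfl fun j _ => ?_
  by_cases h2 : i < j <;> by_cases h3 : G.Adj i j <;> simp [h2, h3]

end

/-! ### The lower bound -/

/-- every colouring of `K_N` has a zero-sum complete subgraph on `n` vertices. -/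
def Arr (n N : ℕ) : Prop :=
  ∀ c : Fin N → Fin N → K, (∀ i j, c i j = c j i) → ∃ S : Finset (Fin N), S.card = n ∧ E c S = 0

theorem Arr_mono {n N N' : ℕ} (h : Arr n N) (hN : N ≤ N') : Arr n N' := by
  intro c hc
  obtain ⟨S, h1, h2⟩ := h (fun i j => c (Fin.castLEEmb hN i) (Fin.castLEEmb hN j))
    (fun i j => hc _ _)
  exact ⟨S.map (Fin.castLEEmb hN), by simpa using h1, by rw [E_map c hc]; exact h2⟩

/-- the four elements of the group, numbered. -/
def col : ℕ → K
  | 0 => (0, 0)
  | 1 => (1, 0)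
  | 2 => (0, 1)
  | _ => (1, 1)

/-- the symmetric matrix with numbered entries. -/
def tab (L : List (List ℕ)) (m : ℕ) : Fin m → Fin m → K :=
  fun i j => col ((L.getD i.val []).getD j.val 0)

def L9 : List (List ℕ) :=
  [[0, 0, 1, 3, 3, 0, 3, 3, 1],
   [0, 0, 0, 0, 0, 0, 0, 0, 0],
   [1, 0, 0, 3, 1, 0, 1, 1, 3],
   [3, 0, 3, 0, 1, 0, 1, 1, 1],
   [3, 0, 1, 1, 0, 0, 2, 2, 3],
   [0, 0, 0, 0, 0, 0, 0, 0, 0],
   [3, 0, 1, 1, 2, 0, 0, 2, 3],
   [3, 0, 1, 1, 2, 0, 2, 0, 3],
   [1, 0, 3, 1, 3, 0, 3, 3, 0]]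

theorem L9_symm : ∀ i j : Fin 9, tab L9 9 i j = tab L9 9 j i := by decide +kernel

theorem L9_no : ∀ a b : Fin 9, a < b → ∀ c, b < c → ∀ d, c < d →
    tab L9 9 a b + tab L9 9 a c + tab L9 9 a d + tab L9 9 b c + tab L9 9 b d
      + tab L9 9 c d ≠ 0 := by
  decide +kernel

theorem map_ordEmb {n N : ℕ} (S : Finset (Fin N)) (h : S.card = n) :
    Finset.univ.map (S.orderEmbOfFin h).toEmbedding = S := by
  rw [← Finset.coe_inj]
  simp

theorem not_Arr_nine : ¬ Arr 4 9 := by
  intro h
  obtain ⟨S, h1, h2⟩ := h _ L9_symm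
  have hg := map_ordEmb S h1
  generalize (S.orderEmbOfFin h1) = g at hg
  have h3 : ∀ i j : Fin 4, i < j → g i < g j := fun i j hij => g.strictMono hij
  rw [← hg, E_map _ L9_symm] at h2
  have hu : (Finset.univ : Finset (Fin 4)) = {0, 1, 2, 3} := by decide
  rw [hu, E_four _ (fun i j => L9_symm _ _) 0 1 2 3 (by decide) (by decide) (by decide)
    (by decide) (by decide) (by decide)] at h2
  exact L9_no (g 0) (g 1) (h3 _ _ (by decide)) (g 2) (h3 _ _ (by decide)) (g 3)
    (h3 _ _ (by decide)) h2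

theorem sum_top {n N : ℕ} (c : Sym2 (Fin N) → K) (f : Fin n ↪ Fin N) :
    ∑ e ∈ (⊤ : SimpleGraph (Fin n)).edgeFinset, c (e.map f)
      = E (fun i j => c s(f i, f j)) Finset.univ := by
  rw [← sum_edges]
  unfold E
  refine Finset.sum_congr rfl fun i _ => ?_
  rw [Finset.sum_filter]
  refine Finset.sum_congr rfl fun j _ => ?_
  by_cases h : i < j
  · rw [if_pos h, if_pos ⟨h, by simpa using h.ne⟩]
    rfl
  · rw [if_neg h, if_neg (fun hh => h hh.1)]

theorem arrows_iff {n N : ℕ} : ZeroSumArrows (⊤ : SimpleGraph (Fin n)) N ↔ Arr n N := by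
  constructor
  · intro h c hc
    obtain ⟨f, hf⟩ := h (Sym2.lift ⟨c, hc⟩)
    rw [sum_top] at hf
    refine ⟨Finset.univ.map f, by simp, ?_⟩
    rw [E_map c hc]
    exact hf
  · intro h c
    obtain ⟨S, h1, h2⟩ := h (fun i j => c s(i, j)) (fun i j => by rw [Sym2.eq_swap])
    refine ⟨(S.orderEmbOfFin h1).toEmbedding, ?_⟩
    rw [sum_top]
    have := E_map (fun i j => c s(i, j)) (fun i j => by rw [Sym2.eq_swap])
      (S.orderEmbOfFin h1).toEmbedding Finset.univ
    rw [← this]
    have hS : Finset.univ.map (S.orderEmbOfFin h1).toEmbedding = S := by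
      rw [← Finset.coe_inj]
      simp
    rw [hS]
    exact h2

/-- `EvenBipartite G`: the vertices of `G` can be split into two classes `X` and `Xᶜ` without
edges inside the classes, and all vertices of `Xᶜ` have even degree. -/
def EvenBipartite {n : ℕ} (G : SimpleGraph (Fin n)) [DecidableRel G.Adj] : Prop :=
  ∃ X : Finset (Fin n), (∀ u ∈ X, ∀ v ∈ X, ¬ G.Adj u v) ∧ (∀ u ∉ X, ∀ v ∉ X, ¬ G.Adj u v) ∧
    ∀ v ∉ X, Even (G.degree v)

theorem built_of_bipartite {n : ℕ} (G : SimpleGraph (Fin n)) [DecidableRel G.Adj]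
    (h : EvenBipartite G) : EvenBuilt G Finset.univ := by
  obtain ⟨X, h1, h2, h3⟩ := h
  have hY : EvenBuilt G Xᶜ := by
    have := EvenBuilt.indep (G := G) ∅ Xᶜ EvenBuilt.empty (by simp)
      (fun w hw w' hw' => h2 w (Finset.mem_compl.1 hw) w' (Finset.mem_compl.1 hw')) (by simp)
    simpa using this
  have := EvenBuilt.indep (G := G) Xᶜ X hY disjoint_compl_left h1 (by
    intro b hb
    have hb' : b ∉ X := Finset.mem_compl.1 hb
    have e : X.filter (fun w => G.Adj w b) = G.neighborFinset b := by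
      ext w
      rw [Finset.mem_filter, SimpleGraph.mem_neighborFinset]
      constructor
      · exact fun h => h.2.symm
      · intro h
        refine ⟨?_, h.symm⟩
        by_contra hw
        exact h2 b hb' w hw h
    rw [e]
    exact h3 b hb')
  have e : Xᶜ ∪ X = Finset.univ := by
    rw [Finset.union_comm]; exact Finset.union_compl X
  rwa [e] at this

/-- The smallest constant for complete multipartite graphs, disjoint unions of complete graphs,
bipartite graphs with all degrees even on one side, and more generally for `EvenBuilt` graphs,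
is `6`. -/
theorem result :
    IsLeast {C : ℕ | ∀ (n : ℕ) (G : SimpleGraph (Fin n)) [DecidableRel G.Adj],
      Even G.edgeFinset.card →
      (G.IsCompleteMultipartite ∨ Gᶜ.IsCompleteMultipartite ∨ EvenBipartite G ∨
        EvenBuilt G Finset.univ) →
        ∃ N : ℕ, N ≤ n + C ∧ ZeroSumArrows G N} 6 := by
  constructor
  · intro n G _ he hG
    refine ⟨n + 6, le_rfl, arrows_of_GA G (GA_built G le_rfl _ ?_)⟩
    rcases hG with hG | hG | hG | hG
    · exact built_of_multipartite G hG _ _ rfl (par_even G he)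
    · refine built_of_cliques G ?_ _ _ rfl (par_even G he)
      intro u v w huv hvw huw
      have h1 : ¬ Gᶜ.Adj u v := fun h => ((SimpleGraph.compl_adj G u v).1 h).2 huv
      have h2 : ¬ Gᶜ.Adj v w := fun h => ((SimpleGraph.compl_adj G v w).1 h).2 hvw
      have h3 : ¬ Gᶜ.Adj u w := hG.trans u v w h1 h2
      by_contra h4
      exact h3 ((SimpleGraph.compl_adj G u w).2 ⟨huw, h4⟩)
    · exact built_of_bipartite G hG
    · exact hG
  · intro C hC
    by_contra hlt
    obtain ⟨N, hN, hA⟩ := hC 4 (⊤ : SimpleGraph (Fin 4)) (by decide)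
      (Or.inl ⟨fun a b c hab hbc => by
        simp only [SimpleGraph.top_adj, not_not] at hab hbc ⊢
        exact hab.trans hbc⟩)
    exact not_Arr_nine (Arr_mono (arrows_iff.1 hA) (by omega))

end Pool.Agent.Results.MP_c15e47_co.MultipartiteSix
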