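import Pool.Agent.H29.ZS.StarCase
import Pool.Agent.KleinClique.FalseTwin
import Pool.Agent.KleinClique.Star
import Pool.Agent.Results.MP_c15e47_co.CliqueValues

open Finset

namespace Pool.Agent.Results.MP_c15e47_co.TwinClasses

open Classical in
/-- `ZeroSumArrows G N`: every colouring `c` of the edges of the complete graph on `N` vertices
by the Klein four-group contains a zero-sum copy of `G`, i.e. a subgraph `H` of the complete graph
isomorphic to `G` whose edge colours add up to zero. -/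
def ZeroSumArrows {n : ℕ} (G : SimpleGraph (Fin n)) (N : ℕ) : Prop :=
  ∀ c : (⊤ : SimpleGraph (Fin N)).edgeSet → ZMod 2 × ZMod 2,
    ∃ H : (⊤ : SimpleGraph (Fin N)).Subgraph, Nonempty (G ≃g H.coe) ∧
      ∑ e : H.edgeSet, c ⟨e.1, H.edgeSet_subset e.2⟩ = 0

/-- `TwinLabels G f`: vertices with the same label are twins, i.e. have the same neighbours among
the remaining vertices. -/
def TwinLabels {n D : ℕ} (G : SimpleGraph (Fin n)) (f : Fin n → Fin D) : Prop :=
  ∀ u v, f u = f v → ∀ w, w ≠ u → w ≠ v → (G.Adj u w ↔ G.Adj v w)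

open Pool.Agent.KleinClique

theorem sum_edges {n : ℕ} (G : SimpleGraph (Fin n)) [DecidableRel G.Adj] {M : Type*}
    [AddCommMonoid M] (F : Sym2 (Fin n) → M) :
    ∑ u, ∑ v, (if u < v ∧ G.Adj u v then F s(u, v) else 0) = ∑ e ∈ G.edgeFinset, F e := by
  rw [← Finset.sum_product', ← Finset.sum_filter]
  refine Finset.sum_bij (fun p _ => s(p.1, p.2)) ?_ ?_ ?_ ?_
  · intro p hp
    rw [Finset.mem_filter] at hp
    rw [SimpleGraph.mem_edgeFinset]
    exact hp.2.2
  · intro p hp q hq hpq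
    rw [Finset.mem_filter] at hp hq
    rcases Sym2.eq_iff.1 hpq with ⟨h1, h2⟩ | ⟨h1, h2⟩
    · exact Prod.ext h1 h2
    · exfalso
      have a1 := hp.2.1
      have a2 := hq.2.1
      rw [h1, h2] at a1
      exact lt_asymm a1 a2
  · intro e he
    induction e with
    | _ u v =>
    rw [SimpleGraph.mem_edgeFinset, SimpleGraph.mem_edgeSet] at he
    rcases lt_or_gt_of_ne he.ne with h | h
    · exact ⟨(u, v), Finset.mem_filter.2 ⟨by simp, h, he⟩, rfl⟩
    · exact ⟨(v, u), Finset.mem_filter.2 ⟨by simp, h, he.symm⟩, Sym2.eq_swap⟩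
  · intro p _
    rfl

theorem cs_pull {n : ℕ} {X : Type*} [DecidableEq X] (G : SimpleGraph (Fin n))
    [DecidableRel G.Adj] (cF : Finset X → Pool.Agent.KleinClique.K4) (φ : Fin n → X)
    (A : Finset (Fin n)) :
    cs (pull G cF φ) A =
      ∑ u ∈ A, ∑ v ∈ A, if u < v ∧ G.Adj u v then cF {φ u, φ v} else 0 := by
  classical
  rw [← Finset.sum_product', ← Finset.sum_filter]
  unfold cs
  rw [← Finset.sum_subset (Finset.filter_subset
    (fun e : Finset (Fin n) => ∃ u v, e = {u, v} ∧ G.Adj u v) (A.powersetCard 2))]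
  · symm
    refine Finset.sum_bij (fun p _ => ({p.1, p.2} : Finset (Fin n))) ?_ ?_ ?_ ?_
    · rintro ⟨u, v⟩ hp
      rw [Finset.mem_filter, Finset.mem_product] at hp
      rw [Finset.mem_filter, Finset.mem_powersetCard]
      refine ⟨⟨?_, Finset.card_pair hp.2.2.ne⟩, u, v, rfl, hp.2.2⟩
      intro z hz
      rw [Finset.mem_insert, Finset.mem_singleton] at hz
      rcases hz with rfl | rfl
      · exact hp.1.1
      · exact hp.1.2
    · rintro ⟨u, v⟩ hp ⟨u', v'⟩ hq hpq
      rw [Finset.mem_filter] at hp hq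
      have hp1 : u < v := hp.2.1
      have hq1 : u' < v' := hq.2.1
      have hpq' : ({u, v} : Finset (Fin n)) = {u', v'} := hpq
      have hu : u ∈ ({u', v'} : Finset (Fin n)) := by rw [← hpq']; simp
      have hv : v ∈ ({u', v'} : Finset (Fin n)) := by rw [← hpq']; simp
      rw [Finset.mem_insert, Finset.mem_singleton] at hu hv
      rcases hu with rfl | rfl <;> rcases hv with rfl | rfl
      · exact absurd hp1 (lt_irrefl _)
      · rfl
      · exact absurd hp1 (lt_asymm hq1)
      · exact absurd hp1 (lt_irrefl _)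
    · intro e he
      rw [Finset.mem_filter, Finset.mem_powersetCard] at he
      obtain ⟨⟨h1, _⟩, u, v, rfl, huv⟩ := he
      have hu : u ∈ A := h1 (by simp)
      have hv : v ∈ A := h1 (by simp)
      rcases lt_or_gt_of_ne huv.ne with h | h
      · exact ⟨(u, v), Finset.mem_filter.2 ⟨Finset.mem_product.2 ⟨hu, hv⟩, h, huv⟩, rfl⟩
      · exact ⟨(v, u), Finset.mem_filter.2 ⟨Finset.mem_product.2 ⟨hv, hu⟩, h, huv.symm⟩,
          Finset.pair_comm v u⟩
    · rintro ⟨u, v⟩ hp
      rw [Finset.mem_filter] at hp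
      exact (pull_pair G cF φ hp.2.2).symm
  · intro e he hne
    rw [Finset.mem_filter, not_and] at hne
    unfold pull
    rw [if_neg (hne he)]

theorem arithA (a N : ℕ) (h : a + 20505 ≤ N) : a + 5 + 20500 ≤ N := by
  linarith

open Pool.Agent.H29.ZS in
theorem base {n N : ℕ} (G : SimpleGraph (Fin n)) (c1 : Fin N → Fin N → Pool.Agent.KleinClique.K4)
    (hc1 : ∀ x y, c1 x y = c1 y x) (cF : Finset (Fin N) → Pool.Agent.KleinClique.K4)
    (hcF : ∀ x y, cF {x, y} = c1 x y) (A : Finset (Fin n))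
    (hpar : cs (pull G (fun _ : Finset (Fin n) => ((1, 0) : Pool.Agent.KleinClique.K4)) id) A = 0)
    (hcard : A.card + 20505 ≤ N) :
    ∃ φ : Fin n → Fin N, Set.InjOn φ A ∧ cs (pull G cF φ) A = 0 := by
  classical
  let h : ({v // v ∈ A} ⊕ Fin 5) → ({v // v ∈ A} ⊕ Fin 5) → ZMod 2 := fun a b =>
    match a, b with
    | Sum.inl u, Sum.inl v => if u.1 < v.1 ∧ G.Adj u.1 v.1 then 1 else 0
    | _, _ => 0
  have e3 : ∀ u v, h (Sum.inl u) (Sum.inr v) = 0 := fun _ _ => rfl
  have e4 : ∀ u v, h (Sum.inr u) v = 0 := fun _ _ => rfl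
  have hd : ∀ a, h a a = 0 := by
    rintro (u | u)
    · simp [h]
    · rfl
  have hev : ∑ a, ∑ b, h a b = 0 := by
    simp only [Fintype.sum_sum_type, e3, e4, Finset.sum_const_zero, add_zero]
    rw [cs_pull] at hpar
    have h1 := congrArg Prod.fst hpar
    rw [Prod.fst_sum] at h1
    have h2 : ∑ u : {v // v ∈ A}, ∑ v : {v // v ∈ A}, h (Sum.inl u) (Sum.inl v) =
        ∑ u ∈ A, ∑ v ∈ A, if u < v ∧ G.Adj u v then (1 : ZMod 2) else 0 := by
      rw [← Finset.sum_coe_sort A]
      refine Finset.sum_congr rfl fun u _ => ?_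
      rw [← Finset.sum_coe_sort A]
    rw [h2]
    refine Eq.trans ?_ h1
    refine Finset.sum_congr rfl fun u _ => ?_
    rw [Prod.fst_sum]
    refine Finset.sum_congr rfl fun v _ => ?_
    split_ifs <;> rfl
  obtain ⟨φ', hφ'⟩ := core h hd hev c1 hc1 (Finset.univ.image Sum.inr)
    (by
      intro w hw v
      obtain ⟨i, -, rfl⟩ := Finset.mem_image.1 hw
      show h (Sum.inr i) v + h v (Sum.inr i) = 0
      rcases v with v | v
      · show (0 : ZMod 2) + 0 = 0
        simp
      · show (0 : ZMod 2) + 0 = 0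
        simp)
    (by
      rw [Finset.card_image_of_injective _ Sum.inr_injective]
      simp)
    (by
      simp only [Fintype.card_sum, Fintype.card_fin, Fintype.card_coe]
      exact arithA _ _ hcard)
  let φ : Fin n → Fin N := fun v => if hv : v ∈ A then φ' (Sum.inl ⟨v, hv⟩) else φ' (Sum.inr 0)
  have hφ : ∀ v (hv : v ∈ A), φ v = φ' (Sum.inl ⟨v, hv⟩) := fun v hv => dif_pos hv
  refine ⟨φ, ?_, ?_⟩
  · intro u hu v hv huv
    rw [hφ u hu, hφ v hv] at huv
    have h1 := Sum.inl_injective (φ'.injective huv)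
    exact congrArg Subtype.val h1
  · refine Eq.trans ?_ hφ'
    rw [cs_pull]
    simp only [Q, Fintype.sum_sum_type, e3, e4, zero_smul, Finset.sum_const_zero, add_zero]
    rw [← Finset.sum_coe_sort A]
    refine Finset.sum_congr rfl fun u _ => ?_
    rw [← Finset.sum_coe_sort A]
    refine Finset.sum_congr rfl fun v _ => ?_
    show _ = (if u.1 < v.1 ∧ G.Adj u.1 v.1 then (1 : ZMod 2) else 0) •
      c1 (φ' (Sum.inl u)) (φ' (Sum.inl v))
    split_ifs
    · rw [one_smul, hcF, hφ u.1 u.2, hφ v.1 v.2]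
    · rw [zero_smul]

/-- the number of vertices of `A` that can be covered by disjoint blocks of eight vertices with
the same label -/
def room {n D : ℕ} (f : Fin n → Fin D) (A : Finset (Fin n)) : ℕ :=
  ∑ d, 8 * ((A.filter (fun v => f v = d)).card / 8)

theorem exists_block {n D : ℕ} (f : Fin n → Fin D) (A : Finset (Fin n)) (h : 0 < room f A) :
    ∃ B ⊆ A, B.card = 8 ∧ (∀ u ∈ B, ∀ v ∈ B, f u = f v) ∧ room f (A \ B) + 8 = room f A := by
  unfold room at h ⊢
  obtain ⟨y, _, hy⟩ := Finset.exists_ne_zero_of_sum_ne_zero h.ne'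
  have hy8 : 8 ≤ (A.filter (fun v => f v = y)).card := by omega
  obtain ⟨B, hBF, hB⟩ := Finset.exists_subset_card_eq hy8
  have hBA : B ⊆ A := hBF.trans (Finset.filter_subset _ _)
  have hBy : ∀ u ∈ B, f u = y := fun u hu => (Finset.mem_filter.1 (hBF hu)).2
  refine ⟨B, hBA, hB, fun u hu v hv => by rw [hBy u hu, hBy v hv], ?_⟩
  rw [← Finset.add_sum_erase _ _ (Finset.mem_univ y), ← Finset.add_sum_erase
    (s := Finset.univ) (f := fun d => 8 * ((A.filter (fun v => f v = d)).card / 8))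
    (h := Finset.mem_univ y)]
  have h1 : ((A \ B).filter (fun v => f v = y)).card =
      (A.filter (fun v => f v = y)).card - 8 := by
    have h2 : (A \ B).filter (fun v => f v = y) = (A.filter (fun v => f v = y)) \ B := by
      ext z
      simp only [Finset.mem_filter, Finset.mem_sdiff]
      tauto
    rw [h2, Finset.card_sdiff_of_subset hBF, hB]
  have h3 : ∑ d ∈ Finset.univ.erase y, 8 * (((A \ B).filter (fun v => f v = d)).card / 8) =
      ∑ d ∈ Finset.univ.erase y, 8 * ((A.filter (fun v => f v = d)).card / 8) := by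
    refine Finset.sum_congr rfl fun d hd => ?_
    have h4 : (A \ B).filter (fun v => f v = d) = A.filter (fun v => f v = d) := by
      ext z
      simp only [Finset.mem_filter, Finset.mem_sdiff]
      constructor
      · rintro ⟨⟨h5, _⟩, h6⟩; exact ⟨h5, h6⟩
      · rintro ⟨h5, h6⟩
        refine ⟨⟨h5, fun h7 => ?_⟩, h6⟩
        exact (Finset.mem_erase.1 hd).1 (h6.symm.trans (hBy z h7))
    rw [h4]
  rw [h1, h3]
  omega

theorem place {n D N : ℕ} (G : SimpleGraph (Fin n)) (f : Fin n → Fin D) (hf : TwinLabels G f)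
    (hN : N = n + 4)
    (c1 : Fin N → Fin N → Pool.Agent.KleinClique.K4)
    (hc1 : ∀ x y, c1 x y = c1 y x) (cF : Finset (Fin N) → Pool.Agent.KleinClique.K4)
    (hcF : ∀ x y, cF {x, y} = c1 x y) : ∀ (m : ℕ) (A : Finset (Fin n)), A.card = m →
    A.card + 20501 ≤ n + room f A →
    cs (pull G (fun _ : Finset (Fin n) => ((1, 0) : Pool.Agent.KleinClique.K4)) id) A = 0 →
    ∃ φ : Fin n → Fin N, Set.InjOn φ A ∧ cs (pull G cF φ) A = 0 := by
  intro m
  induction m using Nat.strong_induction_on with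
  | _ m ih =>
  intro A hA hroom hpar
  by_cases hcard : A.card + 20505 ≤ N
  · exact base G c1 hc1 cF hcF A hpar hcard
  · obtain ⟨B, hBA, hB, hBf, hBroom⟩ := exists_block f A (by omega)
    have htw : ∀ u ∈ B, ∀ v ∈ B, ∀ w, w ≠ u → w ≠ v → (G.Adj u w ↔ G.Adj v w) :=
      fun u hu v hv => hf u v (hBf u hu v hv)
    have hdis : Disjoint (A \ B) B := Finset.sdiff_disjoint
    have hun : (A \ B) ∪ B = A := Finset.sdiff_union_of_subset hBA
    have hcA : (A \ B).card = A.card - 8 := by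
      rw [Finset.card_sdiff_of_subset hBA, hB]
    have hA8 : 8 ≤ A.card := by
      rw [← hB]
      exact Finset.card_le_card hBA
    have hAn : A.card ≤ n := by
      have := Finset.card_le_univ A
      rwa [Fintype.card_fin] at this
    obtain ⟨φ, hφ, hφ0⟩ := ih (A \ B).card (by omega) (A \ B) rfl (by omega) (by
      rw [← parity_step G (A \ B) B hdis hB htw, hun]
      exact hpar)
    obtain ⟨ψ, hψ, hψ0⟩ := extend G cF (A \ B) B hdis hB htw φ hφ hφ0 (by
      rw [Fintype.card_fin]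
      omega)
    rw [hun] at hψ hψ0
    exact ⟨ψ, hψ, hψ0⟩

theorem arrows {n D : ℕ} (G : SimpleGraph (Fin n)) (hG : Even G.edgeSet.ncard)
    (f : Fin n → Fin D) (hf : TwinLabels G f)
    (hn : 20501 ≤ ∑ d, 8 * ((Finset.univ.filter (fun v => f v = d)).card / 8)) :
    ZeroSumArrows G (n + 4) := by
  classical
  obtain ⟨N, hN⟩ : ∃ N, N = n + 4 := ⟨_, rfl⟩
  rw [← hN]
  intro c
  let c2 : Sym2 (Fin N) → Pool.Agent.KleinClique.K4 := fun e =>
    if h : e ∈ (⊤ : SimpleGraph (Fin N)).edgeSet then c ⟨e, h⟩ else 0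
  let c1 : Fin N → Fin N → Pool.Agent.KleinClique.K4 := fun x y => c2 s(x, y)
  have hc1 : ∀ x y, c1 x y = c1 y x := by
    intro x y; simp only [c1]; rw [Sym2.eq_swap]
  let cF : Finset (Fin N) → Pool.Agent.KleinClique.K4 := fun t =>
    if h : ∃ e : Sym2 (Fin N), e.toFinset = t then c2 h.choose else 0
  have hcF : ∀ x y, cF {x, y} = c1 x y := by
    intro x y
    have h0 : (s(x, y) : Sym2 (Fin N)).toFinset = {x, y} := by
      ext z
      rw [Sym2.mem_toFinset, Sym2.mem_iff, Finset.mem_insert, Finset.mem_singleton]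
    have h1 : ∃ e' : Sym2 (Fin N), e'.toFinset = {x, y} := ⟨s(x, y), h0⟩
    have h2 : cF {x, y} = c2 h1.choose := dif_pos h1
    have h3 : h1.choose = s(x, y) := by
      apply Sym2.ext
      intro z
      rw [← Sym2.mem_toFinset, ← Sym2.mem_toFinset, h0, h1.choose_spec]
    rw [h2, h3]
  have hpar : cs (pull G (fun _ : Finset (Fin n) => ((1, 0) : Pool.Agent.KleinClique.K4)) id)
      Finset.univ = 0 := by
    rw [cs_pull, sum_edges G (fun _ => ((1, 0) : Pool.Agent.KleinClique.K4)), Finset.sum_const]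
    rw [← SimpleGraph.coe_edgeFinset, Set.ncard_coe_finset] at hG
    obtain ⟨k, hk⟩ := hG
    rw [hk, add_nsmul, k4_add_self]
  obtain ⟨φ, hφ, hφ0⟩ := place G f hf hN c1 hc1 cF hcF _ Finset.univ rfl (by
    have h8 : 20501 ≤ room f Finset.univ := hn
    rw [Finset.card_univ, Fintype.card_fin]
    omega) hpar
  have hinj : Function.Injective φ := fun a b hab => hφ (by simp) (by simp) hab
  let ψ : Fin n ↪ Fin N := ⟨φ, hinj⟩
  let g : SimpleGraph.Copy G (⊤ : SimpleGraph (Fin N)) :=
    ⟨⟨ψ, fun {a b} hab => ψ.injective.ne hab.ne⟩, ψ.injective⟩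
  refine ⟨g.toSubgraph, ⟨g.isoToSubgraph⟩, ?_⟩
  have hsum : cs (pull G cF φ) Finset.univ = ∑ e ∈ G.edgeFinset, c2 (e.map ψ) := by
    rw [cs_pull, ← sum_edges G (fun e => c2 (e.map ψ))]
    refine Finset.sum_congr rfl fun u _ => Finset.sum_congr rfl fun v _ => ?_
    split_ifs
    · rw [hcF]; rfl
    · rfl
  rw [hsum] at hφ0
  rw [← hφ0]
  have e1 : ∑ e : g.toSubgraph.edgeSet, c ⟨e.1, g.toSubgraph.edgeSet_subset e.2⟩ =
      ∑ e : g.toSubgraph.edgeSet, c2 e.1 := by
    refine Finset.sum_congr rfl fun e _ => ?_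
    simp only [c2]
    rw [dif_pos (g.toSubgraph.edgeSet_subset e.2)]
  rw [e1]
  have e2 : ∑ e : g.toSubgraph.edgeSet, c2 e.1 = ∑ e ∈ G.edgeFinset.image (Sym2.map ψ), c2 e := by
    symm
    refine Finset.sum_subtype _ (fun x => ?_) _
    rw [SimpleGraph.Subgraph.edgeSet_map]
    simp only [Finset.mem_image, SimpleGraph.mem_edgeFinset, Set.mem_image,
      SimpleGraph.Subgraph.edgeSet_top]
    rfl
  rw [e2, Finset.sum_image]
  intro a _ b _ hab
  exact Sym2.map.injective ψ.injective hab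

/-- the number of vertices of `A` that can be covered by disjoint blocks of four vertices with
the same label -/
def room4 {n D : ℕ} (f : Fin n → Fin D) (A : Finset (Fin n)) : ℕ :=
  ∑ d, 4 * ((A.filter (fun v => f v = d)).card / 4)

theorem exists_block4 {n D : ℕ} (f : Fin n → Fin D) (A : Finset (Fin n)) (h : 0 < room4 f A) :
    ∃ B ⊆ A, B.card = 4 ∧ (∀ u ∈ B, ∀ v ∈ B, f u = f v) ∧ room4 f (A \ B) + 4 = room4 f A := by
  unfold room4 at h ⊢
  obtain ⟨y, _, hy⟩ := Finset.exists_ne_zero_of_sum_ne_zero h.ne'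
  have hy4 : 4 ≤ (A.filter (fun v => f v = y)).card := by omega
  obtain ⟨B, hBF, hB⟩ := Finset.exists_subset_card_eq hy4
  have hBA : B ⊆ A := hBF.trans (Finset.filter_subset _ _)
  have hBy : ∀ u ∈ B, f u = y := fun u hu => (Finset.mem_filter.1 (hBF hu)).2
  refine ⟨B, hBA, hB, fun u hu v hv => by rw [hBy u hu, hBy v hv], ?_⟩
  rw [← Finset.add_sum_erase _ _ (Finset.mem_univ y), ← Finset.add_sum_erase
    (s := Finset.univ) (f := fun d => 4 * ((A.filter (fun v => f v = d)).card / 4))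
    (h := Finset.mem_univ y)]
  have h1 : ((A \ B).filter (fun v => f v = y)).card =
      (A.filter (fun v => f v = y)).card - 4 := by
    have h2 : (A \ B).filter (fun v => f v = y) = (A.filter (fun v => f v = y)) \ B := by
      ext z
      simp only [Finset.mem_filter, Finset.mem_sdiff]
      tauto
    rw [h2, Finset.card_sdiff_of_subset hBF, hB]
  have h3 : ∑ d ∈ Finset.univ.erase y, 4 * (((A \ B).filter (fun v => f v = d)).card / 4) =
      ∑ d ∈ Finset.univ.erase y, 4 * ((A.filter (fun v => f v = d)).card / 4) := by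
    refine Finset.sum_congr rfl fun d hd => ?_
    have h4 : (A \ B).filter (fun v => f v = d) = A.filter (fun v => f v = d) := by
      ext z
      simp only [Finset.mem_filter, Finset.mem_sdiff]
      constructor
      · rintro ⟨⟨h5, _⟩, h6⟩; exact ⟨h5, h6⟩
      · rintro ⟨h5, h6⟩
        refine ⟨⟨h5, fun h7 => ?_⟩, h6⟩
        exact (Finset.mem_erase.1 hd).1 (h6.symm.trans (hBy z h7))
    rw [h4]
  rw [h1, h3]
  omega

theorem place4 {n D N : ℕ} (G : SimpleGraph (Fin n)) (f : Fin n → Fin D)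
    (hf : ∀ u v, f u = f v → ∀ w, (G.Adj u w ↔ G.Adj v w))
    (hN : N = n + 2)
    (c1 : Fin N → Fin N → K4)
    (hc1 : ∀ x y, c1 x y = c1 y x) (cF : Finset (Fin N) → K4)
    (hcF : ∀ x y, cF {x, y} = c1 x y) : ∀ (m : ℕ) (A : Finset (Fin n)), A.card = m →
    A.card + 20503 ≤ n + room4 f A →
    cs (pull G (fun _ : Finset (Fin n) => ((1, 0) : K4)) id) A = 0 →
    ∃ φ : Fin n → Fin N, Set.InjOn φ A ∧ cs (pull G cF φ) A = 0 := by
  intro m
  induction m using Nat.strong_induction_on with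
  | _ m ih =>
  intro A hA hroom hpar
  by_cases hcard : A.card + 20505 ≤ N
  · exact base G c1 hc1 cF hcF A hpar hcard
  · obtain ⟨B, hBA, hB, hBf, hBroom⟩ := exists_block4 f A (by omega)
    have htw : ∀ u ∈ B, ∀ v ∈ B, ∀ w, (G.Adj u w ↔ G.Adj v w) :=
      fun u hu v hv => hf u v (hBf u hu v hv)
    have hdis : Disjoint (A \ B) B := Finset.sdiff_disjoint
    have hun : (A \ B) ∪ B = A := Finset.sdiff_union_of_subset hBA
    have hcA : (A \ B).card = A.card - 4 := by
      rw [Finset.card_sdiff_of_subset hBA, hB]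
    have hA4 : 4 ≤ A.card := by
      rw [← hB]
      exact Finset.card_le_card hBA
    have hAn : A.card ≤ n := by
      have := Finset.card_le_univ A
      rwa [Fintype.card_fin] at this
    obtain ⟨φ, hφ, hφ0⟩ := ih (A \ B).card (by omega) (A \ B) rfl (by omega) (by
      rw [← parity_four G (A \ B) B hdis hB htw, hun]
      exact hpar)
    obtain ⟨ψ, hψ, hψ0⟩ := extend_four G cF (A \ B) B hdis hB htw φ hφ hφ0 (by
      rw [Fintype.card_fin]
      omega)
    rw [hun] at hψ hψ0
    exact ⟨ψ, hψ, hψ0⟩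

theorem arrows4 {n D : ℕ} (G : SimpleGraph (Fin n)) (hG : Even G.edgeSet.ncard)
    (f : Fin n → Fin D) (hf : ∀ u v, f u = f v → ∀ w, (G.Adj u w ↔ G.Adj v w))
    (hn : 20503 ≤ ∑ d, 4 * ((Finset.univ.filter (fun v => f v = d)).card / 4)) :
    ZeroSumArrows G (n + 2) := by
  classical
  obtain ⟨N, hN⟩ : ∃ N, N = n + 2 := ⟨_, rfl⟩
  rw [← hN]
  intro c
  let c2 : Sym2 (Fin N) → K4 := fun e =>
    if h : e ∈ (⊤ : SimpleGraph (Fin N)).edgeSet then c ⟨e, h⟩ else 0
  let c1 : Fin N → Fin N → K4 := fun x y => c2 s(x, y)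
  have hc1 : ∀ x y, c1 x y = c1 y x := by
    intro x y; simp only [c1]; rw [Sym2.eq_swap]
  let cF : Finset (Fin N) → K4 := fun t =>
    if h : ∃ e : Sym2 (Fin N), e.toFinset = t then c2 h.choose else 0
  have hcF : ∀ x y, cF {x, y} = c1 x y := by
    intro x y
    have h0 : (s(x, y) : Sym2 (Fin N)).toFinset = {x, y} := by
      ext z
      rw [Sym2.mem_toFinset, Sym2.mem_iff, Finset.mem_insert, Finset.mem_singleton]
    have h1 : ∃ e' : Sym2 (Fin N), e'.toFinset = {x, y} := ⟨s(x, y), h0⟩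
    have h2 : cF {x, y} = c2 h1.choose := dif_pos h1
    have h3 : h1.choose = s(x, y) := by
      apply Sym2.ext
      intro z
      rw [← Sym2.mem_toFinset, ← Sym2.mem_toFinset, h0, h1.choose_spec]
    rw [h2, h3]
  have hpar : cs (pull G (fun _ : Finset (Fin n) => ((1, 0) : K4)) id)
      Finset.univ = 0 := by
    rw [cs_pull, sum_edges G (fun _ => ((1, 0) : K4)), Finset.sum_const]
    rw [← SimpleGraph.coe_edgeFinset, Set.ncard_coe_finset] at hG
    obtain ⟨k, hk⟩ := hG
    rw [hk, add_nsmul, k4_add_self]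
  obtain ⟨φ, hφ, hφ0⟩ := place4 G f hf hN c1 hc1 cF hcF _ Finset.univ rfl (by
    have h8 : 20503 ≤ room4 f Finset.univ := hn
    rw [Finset.card_univ, Fintype.card_fin]
    omega) hpar
  have hinj : Function.Injective φ := fun a b hab => hφ (by simp) (by simp) hab
  let ψ : Fin n ↪ Fin N := ⟨φ, hinj⟩
  let g : SimpleGraph.Copy G (⊤ : SimpleGraph (Fin N)) :=
    ⟨⟨ψ, fun {a b} hab => ψ.injective.ne hab.ne⟩, ψ.injective⟩
  refine ⟨g.toSubgraph, ⟨g.isoToSubgraph⟩, ?_⟩
  have hsum : cs (pull G cF φ) Finset.univ = ∑ e ∈ G.edgeFinset, c2 (e.map ψ) := by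
    rw [cs_pull, ← sum_edges G (fun e => c2 (e.map ψ))]
    refine Finset.sum_congr rfl fun u _ => Finset.sum_congr rfl fun v _ => ?_
    split_ifs
    · rw [hcF]; rfl
    · rfl
  rw [hsum] at hφ0
  rw [← hφ0]
  have e1 : ∑ e : g.toSubgraph.edgeSet, c ⟨e.1, g.toSubgraph.edgeSet_subset e.2⟩ =
      ∑ e : g.toSubgraph.edgeSet, c2 e.1 := by
    refine Finset.sum_congr rfl fun e _ => ?_
    simp only [c2]
    rw [dif_pos (g.toSubgraph.edgeSet_subset e.2)]
  rw [e1]
  have e2 : ∑ e : g.toSubgraph.edgeSet, c2 e.1 = ∑ e ∈ G.edgeFinset.image (Sym2.map ψ), c2 e := by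
    symm
    refine Finset.sum_subtype _ (fun x => ?_) _
    rw [SimpleGraph.Subgraph.edgeSet_map]
    simp only [Finset.mem_image, SimpleGraph.mem_edgeFinset, Set.mem_image,
      SimpleGraph.Subgraph.edgeSet_top]
    rfl
  rw [e2, Finset.sum_image]
  intro a _ b _ hab
  exact Sym2.map.injective ψ.injective hab

theorem star_not {k N : ℕ} (hN : N ≤ 2 * k + 4) : ¬ ZeroSumArrows (starG (2 * k + 2)) N := by
  classical
  intro hA
  obtain ⟨H, ⟨φ⟩, h0⟩ := hA (fun e =>
    Sym2.lift ⟨fun u v : Fin N => ga u.val v.val, fun u v => ga_symm _ _⟩ e.1)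
  obtain ⟨x, hx⟩ : ∃ x : Fin N, x = (φ 0).1 := ⟨_, rfl⟩
  have hxv : x ∈ H.verts := hx ▸ (φ 0).2
  have hφ0 : φ 0 = ⟨x, hxv⟩ := Subtype.ext hx.symm
  have hadj : ∀ y ∈ H.verts.toFinset.erase x, H.Adj x y := by
    intro y hy
    rw [Finset.mem_erase, Set.mem_toFinset] at hy
    have h1 : (starG (2 * k + 2)).Adj 0 (φ.symm ⟨y, hy.2⟩) := by
      refine ⟨fun h2 => hy.1 ?_, Or.inl rfl⟩
      have h3 := congrArg φ h2
      rw [hφ0, RelIso.apply_symm_apply] at h3
      exact (congrArg Subtype.val h3).symm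
    have h2 := φ.map_rel_iff.2 h1
    rw [hφ0, RelIso.apply_symm_apply] at h2
    exact h2
  have hcent : ∀ u v, H.Adj u v → u = x ∨ v = x := by
    intro u v huv
    have hu := huv.fst_mem
    have hv := huv.snd_mem
    have h1 : (starG (2 * k + 2)).Adj (φ.symm ⟨u, hu⟩) (φ.symm ⟨v, hv⟩) := by
      apply φ.map_rel_iff.1
      rw [RelIso.apply_symm_apply, RelIso.apply_symm_apply]
      exact huv
    rcases h1.2 with h2 | h2
    · left
      have h3 := congrArg φ h2
      rw [hφ0, RelIso.apply_symm_apply] at h3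
      exact congrArg Subtype.val h3
    · right
      have h3 := congrArg φ h2
      rw [hφ0, RelIso.apply_symm_apply] at h3
      exact congrArg Subtype.val h3
  have hcard : (H.verts.toFinset.erase x).card = 2 * k + 2 := by
    rw [Finset.card_erase_of_mem (Set.mem_toFinset.2 hxv), Set.toFinset_card,
      ← Fintype.card_congr φ.toEquiv, Fintype.card_fin]
    omega
  have hsum : ∑ y ∈ H.verts.toFinset.erase x, ga x.val y.val =
      ∑ e : H.edgeSet, Sym2.lift ⟨fun u v : Fin N => ga u.val v.val, fun u v => ga_symm _ _⟩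
        e.1 := by
    refine Finset.sum_bij (fun y hy => (⟨s(x, y), hadj y hy⟩ : H.edgeSet)) ?_ ?_ ?_ ?_
    · intro y hy
      exact Finset.mem_univ _
    · intro y hy z hz hyz
      have h1 : s(x, y) = s(x, z) := congrArg Subtype.val hyz
      rcases Sym2.eq_iff.1 h1 with ⟨_, h2⟩ | ⟨h2, h3⟩
      · exact h2
      · exact h3.trans h2
    · rintro ⟨e, he⟩ _
      induction e with
      | _ u v =>
      rw [SimpleGraph.Subgraph.mem_edgeSet] at he
      rcases hcent u v he with h1 | h1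
      · refine ⟨v, ?_, ?_⟩
        · rw [Finset.mem_erase, Set.mem_toFinset]
          exact ⟨fun h2 => he.ne (h1.trans h2.symm), he.snd_mem⟩
        · apply Subtype.ext
          show (s(x, v) : Sym2 (Fin N)) = s(u, v)
          rw [h1]
      · refine ⟨u, ?_, ?_⟩
        · rw [Finset.mem_erase, Set.mem_toFinset]
          exact ⟨fun h2 => he.ne (h2.trans h1.symm), he.fst_mem⟩
        · apply Subtype.ext
          show (s(x, u) : Sym2 (Fin N)) = s(u, v)
          rw [h1]
          exact Sym2.eq_swap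
    · intro y hy
      rfl
  refine ga_star x.val k N (H.verts.toFinset.erase x) hN x.isLt ?_ hcard (hsum.trans h0)
  intro y hy h1
  rw [Finset.mem_erase] at hy
  exact hy.1 (Fin.ext h1)

theorem star_edges (b : ℕ) : (starG b).edgeSet.ncard = b := by
  have h1 : (starG b).edgeSet = (fun v : Fin b => s((0 : Fin (b + 1)), v.succ)) '' Set.univ := by
    ext e
    induction e with
    | _ u v =>
    rw [SimpleGraph.mem_edgeSet]
    constructor
    · rintro ⟨h1, h2 | h2⟩
      · subst h2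
        obtain ⟨w, rfl⟩ := Fin.exists_succ_eq.2 h1.symm
        exact ⟨w, trivial, rfl⟩
      · subst h2
        obtain ⟨w, rfl⟩ := Fin.exists_succ_eq.2 h1
        exact ⟨w, trivial, Sym2.eq_swap⟩
    · rintro ⟨w, _, hw⟩
      rcases Sym2.eq_iff.1 hw with ⟨rfl, rfl⟩ | ⟨rfl, rfl⟩
      · exact ⟨(Fin.succ_ne_zero w).symm, Or.inl rfl⟩
      · exact ⟨Fin.succ_ne_zero w, Or.inr rfl⟩
  rw [h1, Set.ncard_image_of_injective, Set.ncard_univ, Nat.card_fin]
  intro v w h
  rcases Sym2.eq_iff.1 h with ⟨_, h2⟩ | ⟨h2, _⟩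
  · exact Fin.succ_injective _ h2
  · exact absurd h2.symm (Fin.succ_ne_zero w)

theorem top_not {n N : ℕ} (hn : 2 ≤ n) (hN : N ≤ n + 3) :
    ¬ ZeroSumArrows (⊤ : SimpleGraph (Fin n)) N :=
  Pool.Agent.Results.MP_c15e47_co.CliqueValues.not_arrows hn hN

theorem top_edges (k : ℕ) : Even (⊤ : SimpleGraph (Fin (4 * k))).edgeSet.ncard := by
  classical
  rw [← SimpleGraph.coe_edgeFinset, Set.ncard_coe_finset,
    SimpleGraph.card_edgeFinset_top_eq_card_choose_two, Fintype.card_fin]
  exact choose_two_even (by omega)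

/-- Consider the graphs `G` (on `n` vertices) with an even number of edges whose vertices are split
into classes of mutual twins, of sizes `s_1, ..., s_D`. The smallest constant `C` such that
`R(G, Z_2^2) ≤ n + C` for all of them is `4` if one only asks that `∑ 8 ⌊s_i / 8⌋ ≥ 20501`, and it
is `2` if the vertices of every class have equal neighbourhoods (non-adjacent twins) and
`∑ 4 ⌊s_i / 4⌋ ≥ 20503`. -/
theorem result :
    IsLeast {C : ℕ | ∀ (D n : ℕ) (G : SimpleGraph (Fin n)) (f : Fin n → Fin D),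
      Even G.edgeSet.ncard → TwinLabels G f →
      20501 ≤ ∑ d, 8 * ((Finset.univ.filter (fun v => f v = d)).card / 8) →
      ∃ N : ℕ, N ≤ n + C ∧ ZeroSumArrows G N} 4 ∧
    IsLeast {C : ℕ | ∀ (D n : ℕ) (G : SimpleGraph (Fin n)) (f : Fin n → Fin D),
      Even G.edgeSet.ncard → (∀ u v, f u = f v → ∀ w, (G.Adj u w ↔ G.Adj v w)) →
      20503 ≤ ∑ d, 4 * ((Finset.univ.filter (fun v => f v = d)).card / 4) →
      ∃ N : ℕ, N ≤ n + C ∧ ZeroSumArrows G N} 2 := by
  refine ⟨⟨?_, ?_⟩, ?_, ?_⟩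
  · intro D n G f hG hf hn
    exact ⟨n + 4, le_rfl, arrows G hG f hf hn⟩
  · intro C hC
    by_contra hlt
    obtain ⟨k, hk⟩ : ∃ k, 20501 ≤ 8 * ((4 * k) / 8) := ⟨5126, by norm_num⟩
    obtain ⟨N, hN, hA⟩ := hC 1 (4 * k) ⊤ (fun _ => 0) (top_edges k)
      (fun u v _ w hu hv => ⟨fun _ => hv.symm, fun _ => hu.symm⟩)
      (by
        have h1 : (Finset.univ.filter (fun _ : Fin (4 * k) => (0 : Fin 1) = 0)).card =
            4 * k := by
          rw [Finset.filter_true_of_mem (fun _ _ => rfl), Finset.card_univ, Fintype.card_fin]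
        calc 20501 ≤ 8 * ((4 * k) / 8) := hk
          _ = 8 * ((Finset.univ.filter (fun _ : Fin (4 * k) => (0 : Fin 1) = 0)).card / 8) := by
            rw [h1]
          _ ≤ _ := Finset.single_le_sum
            (f := fun d : Fin 1 =>
              8 * ((Finset.univ.filter (fun _ : Fin (4 * k) => (0 : Fin 1) = d)).card / 8))
            (fun _ _ => Nat.zero_le _) (Finset.mem_univ 0))
    exact top_not (by omega) (by omega) hA
  · intro D n G f hG hf hn
    exact ⟨n + 2, le_rfl, arrows4 G hG f hf hn⟩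
  · intro C hC
    by_contra hlt
    obtain ⟨k, hk⟩ : ∃ k, 20503 ≤ 4 * ((2 * k + 2) / 4) := ⟨10251, by norm_num⟩
    obtain ⟨N, hN, hA⟩ := hC 2 (2 * k + 2 + 1) (starG (2 * k + 2))
      (fun v => if v = 0 then 0 else 1)
      (by
        rw [star_edges]
        exact ⟨k + 1, by ring⟩)
      (by
        intro u v huv w
        by_cases hu : u = 0 <;> by_cases hv : v = 0
        · rw [hu, hv]
        · simp [hu, hv] at huv
        · simp [hu, hv] at huv
        · show (u ≠ w ∧ (u = 0 ∨ w = 0)) ↔ (v ≠ w ∧ (v = 0 ∨ w = 0))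
          constructor
          · rintro ⟨_, h2 | h2⟩
            · exact absurd h2 hu
            · exact ⟨h2 ▸ hv, Or.inr h2⟩
          · rintro ⟨_, h2 | h2⟩
            · exact absurd h2 hv
            · exact ⟨h2 ▸ hu, Or.inr h2⟩)
      (by
        have h1 : (Finset.univ.filter (fun v : Fin (2 * k + 2 + 1) =>
            (if v = 0 then (0 : Fin 2) else 1) = 1)).card = 2 * k + 2 := by
          have h2 : (Finset.univ.filter (fun v : Fin (2 * k + 2 + 1) =>
              (if v = 0 then (0 : Fin 2) else 1) = 1)) = Finset.univ.erase 0 := by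
            ext v
            by_cases hv : v = 0 <;> simp [hv]
          rw [h2, Finset.card_erase_of_mem (Finset.mem_univ _), Finset.card_univ,
            Fintype.card_fin]
          omega
        rw [Fin.sum_univ_two, h1]
        omega)
    exact star_not (by omega) hA

end Pool.Agent.Results.MP_c15e47_co.TwinClasses
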